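import Mathlib

/-!
Steiner trees (general compact connected `H^1`-minimisers): definitions and topological lemmas.
-/

open MeasureTheory MeasureTheory.Measure Set Metric Topology
open scoped ENNReal NNReal

set_option linter.unusedSectionVars false

namespace Pool.Agent.Helper5.Steiner

variable {E : Type*} [NormedAddCommGroup E] [InnerProductSpace ℝ E] [MeasurableSpace E]
  [BorelSpace E]

/-- `St` is a Steiner tree for the set of terminals `A`: a compact connected set containing `A`,
of least one-dimensional Hausdorff measure among all such sets. -/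
structure IsSteiner (A St : Set E) : Prop where
  compact : IsCompact St
  conn : IsConnected St
  sub : A ⊆ St
  min : ∀ K : Set E, IsCompact K → IsConnected K → A ⊆ K → μH[1] St ≤ μH[1] K

/-- `p` is a branching point of `St` (terminals `A`): a point of `St \ A` at which at least three
segments of `St` meet. -/
def IsBranch (A St : Set E) (p : E) : Prop :=
  p ∈ St ∧ p ∉ A ∧ ∃ u : Fin 3 → E, Function.Injective u ∧ (∀ i, ‖u i‖ = 1) ∧
    ∃ ε : ℝ, 0 < ε ∧ ∀ i, segment ℝ p (p + ε • u i) ⊆ St

/-- A connected set is not the union of two disjoint nonempty closed sets. -/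
theorem no_split {X P R : Set E} (hX : IsPreconnected X) (hP : IsClosed P) (hR : IsClosed R)
    (hcov : X = P ∪ R) (hd : Disjoint P R) (hPn : P.Nonempty) (hRn : R.Nonempty) : False := by
  rw [isPreconnected_closed_iff] at hX
  have h := hX P R hP hR hcov.le
    (by obtain ⟨x, hx⟩ := hPn; exact ⟨x, by rw [hcov]; exact Or.inl hx, hx⟩)
    (by obtain ⟨x, hx⟩ := hRn; exact ⟨x, by rw [hcov]; exact Or.inr hx, hx⟩)
  obtain ⟨x, _, hxP, hxR⟩ := h
  exact hd.le_bot ⟨hxP, hxR⟩

/-- A closed set that is not preconnected splits into two disjoint nonempty closed sets. -/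
theorem split_of_not {Y : Set E} (hY : IsClosed Y) (h : ¬ IsPreconnected Y) :
    ∃ P Q : Set E, IsClosed P ∧ IsClosed Q ∧ P.Nonempty ∧ Q.Nonempty ∧ Disjoint P Q ∧
      Y = P ∪ Q := by
  rw [isPreconnected_closed_iff] at h
  push Not at h
  obtain ⟨t, t', ht, ht', hc, hn, hn', he⟩ := h
  refine ⟨Y ∩ t, Y ∩ t', hY.inter ht, hY.inter ht', hn, hn', ?_, ?_⟩
  · rw [Set.disjoint_left]
    rintro x ⟨hx, hxt⟩ ⟨_, hxt'⟩
    have : x ∈ (Y ∩ (t ∩ t')) := ⟨hx, hxt, hxt'⟩
    simp_all
  · rw [← inter_union_distrib_left]
    exact (inter_eq_left.2 hc).symm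

/-- A preconnected subset of a disjoint union of two closed sets lies in the one it meets. -/
theorem sub_of_meets {P Q Z : Set E} (hP : IsClosed P) (hQ : IsClosed Q) (hd : Disjoint P Q)
    (hZ : IsPreconnected Z) (hsub : Z ⊆ P ∪ Q) (hm : (Z ∩ P).Nonempty) : Z ⊆ P := by
  intro x hx
  by_contra hxP
  have hxQ : x ∈ Q := (hsub hx).resolve_left hxP
  rw [isPreconnected_closed_iff] at hZ
  obtain ⟨y, _, hyP, hyQ⟩ := hZ P Q hP hQ hsub hm ⟨x, hx, hxQ⟩
  exact hd.le_bot ⟨hyP, hyQ⟩

/-- A clean ball for `X`: the sphere meets `X` in exactly the two points `c - s u`, `c + s u`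
and `X` contains the diameter between them. -/
structure Clean (X : Set E) (c u : E) (s : ℝ) : Prop where
  pos : 0 < s
  unit : ‖u‖ = 1
  seg : segment ℝ (c - s • u) (c + s • u) ⊆ X
  sphere : X ∩ sphere c s = {c - s • u, c + s • u}

theorem Clean.mem_left {X : Set E} {c u : E} {s : ℝ} (h : Clean X c u s) : c - s • u ∈ X :=
  h.seg (left_mem_segment ℝ _ _)

theorem Clean.mem_right {X : Set E} {c u : E} {s : ℝ} (h : Clean X c u s) : c + s • u ∈ X :=
  h.seg (right_mem_segment ℝ _ _)

theorem Clean.ne {X : Set E} {c u : E} {s : ℝ} (h : Clean X c u s) :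
    c - s • u ≠ c + s • u := by
  intro he
  have h2 : (2 * s) • u = 0 := by
    have : c + s • u - (c - s • u) = 0 := by rw [he]; simp
    rw [two_mul, add_smul]
    have h3 : c + s • u - (c - s • u) = s • u + s • u := by abel
    rw [← h3]; exact this
  rcases smul_eq_zero.1 h2 with h3 | h3
  · have := h.pos; linarith
  · have := h.unit; rw [h3] at this; simp at this

theorem Clean.left_sphere {X : Set E} {c u : E} {s : ℝ} (h : Clean X c u s) :
    c - s • u ∈ Metric.sphere c s := by
  have : c - s • u ∈ X ∩ Metric.sphere c s := by rw [h.sphere]; simp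
  exact this.2

theorem Clean.right_sphere {X : Set E} {c u : E} {s : ℝ} (h : Clean X c u s) :
    c + s • u ∈ Metric.sphere c s := by
  have : c + s • u ∈ X ∩ Metric.sphere c s := by rw [h.sphere]; simp
  exact this.2

theorem seg_sub_closedBall {c u : E} {s : ℝ} (hs : 0 ≤ s) (hu : ‖u‖ = 1) :
    segment ℝ (c - s • u) (c + s • u) ⊆ closedBall c s := by
  apply (convex_closedBall c s).segment_subset
  · rw [mem_closedBall, dist_eq_norm]
    simp [norm_smul, hu, abs_of_nonneg hs]
  · rw [mem_closedBall, dist_eq_norm]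
    simp [norm_smul, hu, abs_of_nonneg hs]

/-- The part of a connected set inside a clean closed ball is connected. -/
theorem Clean.inner_conn {X : Set E} {c u : E} {s : ℝ} (h : Clean X c u s)
    (hX : IsCompact X) (hc : IsPreconnected X) : IsPreconnected (X ∩ closedBall c s) := by
  by_contra hn
  have hcl : IsClosed (X ∩ closedBall c s) := hX.isClosed.inter isClosed_closedBall
  obtain ⟨P, Q, hP, hQ, hPn, hQn, hd, he⟩ := split_of_not hcl hn
  have hPs : P ⊆ X ∩ closedBall c s := by rw [he]; exact subset_union_left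
  have hQs : Q ⊆ X ∩ closedBall c s := by rw [he]; exact subset_union_right
  have hseg : segment ℝ (c - s • u) (c + s • u) ⊆ P ∪ Q := by
    rw [← he]; exact subset_inter h.seg (seg_sub_closedBall h.pos.le h.unit)
  have hsegc : IsPreconnected (segment ℝ (c - s • u) (c + s • u)) :=
    (convex_segment _ _).isPreconnected
  -- the part not containing the segment is clopen in `X`
  have key : ∀ P Q : Set E, IsClosed P → IsClosed Q → Q.Nonempty → P.Nonempty → Disjoint P Q →
      X ∩ closedBall c s = P ∪ Q → segment ℝ (c - s • u) (c + s • u) ⊆ P → False := by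
    intro P Q hP hQ hQn hPn hd he hsP
    have hQs : Q ⊆ X ∩ closedBall c s := by rw [he]; exact subset_union_right
    have hPs : P ⊆ X ∩ closedBall c s := by rw [he]; exact subset_union_left
    have hR : IsClosed (P ∪ (X \ ball c s)) :=
      hP.union (hX.isClosed.sdiff isOpen_ball)
    apply no_split hc hQ hR _ _ hQn (hPn.mono subset_union_left)
    · ext x
      constructor
      · intro hx
        by_cases hxb : x ∈ ball c s
        · have : x ∈ P ∪ Q := by rw [← he]; exact ⟨hx, ball_subset_closedBall hxb⟩
          rcases this with h1 | h1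
          · exact Or.inr (Or.inl h1)
          · exact Or.inl h1
        · exact Or.inr (Or.inr ⟨hx, hxb⟩)
      · rintro (h1 | h1 | h1)
        · exact (hQs h1).1
        · exact (hPs h1).1
        · exact h1.1
    · rw [Set.disjoint_left]
      rintro x hxQ (h1 | h1)
      · exact hd.le_bot ⟨h1, hxQ⟩
      · have hxs : x ∈ X ∩ Metric.sphere c s := by
          refine ⟨h1.1, ?_⟩
          have h2 := (hQs hxQ).2
          have h3 := h1.2
          rw [mem_closedBall] at h2
          rw [mem_ball, not_lt] at h3
          rw [mem_sphere]; exact le_antisymm h2 h3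
        rw [h.sphere] at hxs
        rcases hxs with h2 | h2
        · exact hd.le_bot ⟨by rw [h2]; exact hsP (left_mem_segment ℝ _ _), hxQ⟩
        · rw [mem_singleton_iff] at h2
          exact hd.le_bot ⟨by rw [h2]; exact hsP (right_mem_segment ℝ _ _), hxQ⟩
  rcases hseg (left_mem_segment ℝ _ _) with h1 | h1
  · exact key P Q hP hQ hQn hPn hd he
      (sub_of_meets hP hQ hd hsegc hseg ⟨_, left_mem_segment ℝ _ _, h1⟩)
  · exact key Q P hQ hP hPn hQn hd.symm (by rw [he, union_comm])
      (sub_of_meets hQ hP hd.symm hsegc (by rw [union_comm]; exact hseg)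
        ⟨_, left_mem_segment ℝ _ _, h1⟩)

/-- The two sides of a clean ball. -/
structure Split (X : Set E) (c u : E) (s : ℝ) (P Q : Set E) : Prop where
  closedP : IsClosed P
  closedQ : IsClosed Q
  connP : IsConnected P
  connQ : IsConnected Q
  disj : Disjoint P Q
  union : X \ ball c s = P ∪ Q
  left : c - s • u ∈ P
  right : c + s • u ∈ Q

theorem Split.subP {X : Set E} {c u : E} {s : ℝ} {P Q : Set E} (h : Split X c u s P Q) :
    P ⊆ X := by
  intro x hx
  have : x ∈ X \ ball c s := by rw [h.union]; exact Or.inl hx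
  exact this.1

theorem Split.subQ {X : Set E} {c u : E} {s : ℝ} {P Q : Set E} (h : Split X c u s P Q) :
    Q ⊆ X := by
  intro x hx
  have : x ∈ X \ ball c s := by rw [h.union]; exact Or.inr hx
  exact this.1

theorem Clean.split {X : Set E} {c u : E} {s : ℝ} (h : Clean X c u s)
    (hX : IsCompact X) (hc : IsPreconnected X) (hn : ¬ IsPreconnected (X \ ball c s)) :
    ∃ P Q : Set E, Split X c u s P Q := by
  have hcl : IsClosed (X \ ball c s) := hX.isClosed.sdiff isOpen_ball
  obtain ⟨P, Q, hP, hQ, hPn, hQn, hd, he⟩ := split_of_not hcl hn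
  -- every relatively clopen nonempty piece meets the sphere
  have touch : ∀ P Q : Set E, IsClosed P → IsClosed Q → P.Nonempty →
      Disjoint P Q → X \ ball c s = P ∪ Q → c - s • u ∈ P ∨ c + s • u ∈ P := by
    intro P Q hP hQ hPn hd he
    by_contra hno
    push Not at hno
    have hPs : P ⊆ X \ ball c s := by rw [he]; exact subset_union_left
    have hQs : Q ⊆ X \ ball c s := by rw [he]; exact subset_union_right
    have hR : IsClosed (Q ∪ (X ∩ closedBall c s)) :=
      hQ.union (hX.isClosed.inter isClosed_closedBall)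
    apply no_split hc hP hR _ _ hPn
      ⟨c - s • u, Or.inr ⟨h.mem_left, sphere_subset_closedBall h.left_sphere⟩⟩
    · ext x
      constructor
      · intro hx
        by_cases hxb : x ∈ ball c s
        · exact Or.inr (Or.inr ⟨hx, ball_subset_closedBall hxb⟩)
        · have : x ∈ P ∪ Q := by rw [← he]; exact ⟨hx, hxb⟩
          rcases this with h1 | h1
          · exact Or.inl h1
          · exact Or.inr (Or.inl h1)
      · rintro (h1 | h1 | h1)
        · exact (hPs h1).1
        · exact (hQs h1).1
        · exact h1.1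
    · rw [Set.disjoint_left]
      rintro x hxP (h1 | h1)
      · exact hd.le_bot ⟨hxP, h1⟩
      · have hxs : x ∈ X ∩ Metric.sphere c s := by
          refine ⟨h1.1, ?_⟩
          have h2 := h1.2
          have h3 := (hPs hxP).2
          rw [mem_closedBall] at h2
          rw [mem_ball, not_lt] at h3
          rw [mem_sphere]; exact le_antisymm h2 h3
        rw [h.sphere] at hxs
        rcases hxs with h2 | h2
        · exact hno.1 (h2 ▸ hxP)
        · rw [mem_singleton_iff] at h2
          exact hno.2 (h2 ▸ hxP)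
  -- once `P` contains exactly one of the two points it is connected
  have conn : ∀ P Q : Set E, ∀ a : E, IsClosed P → IsClosed Q → P.Nonempty →
      Disjoint P Q → X \ ball c s = P ∪ Q → a ∈ P →
      (∀ b, (b = c - s • u ∨ b = c + s • u) → b ∈ P → b = a) → IsConnected P := by
    intro P Q a hP hQ hPn hd he ha huniq
    refine ⟨hPn, ?_⟩
    by_contra hnc
    obtain ⟨P1, P2, h1, h2, h1n, h2n, h12, hP12⟩ := split_of_not hP hnc
    have aux : ∀ P1 P2 : Set E, IsClosed P1 → IsClosed P2 → P2.Nonempty → Disjoint P1 P2 →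
        P = P1 ∪ P2 → a ∈ P1 → False := by
      intro P1 P2 h1 h2 h2n h12 hP12 ha1
      have hP1 : P1 ⊆ P := by rw [hP12]; exact subset_union_left
      have hP2 : P2 ⊆ P := by rw [hP12]; exact subset_union_right
      have hdd : Disjoint P2 (P1 ∪ Q) := by
        rw [Set.disjoint_left]
        rintro x hx (h3 | h3)
        · exact h12.le_bot ⟨h3, hx⟩
        · exact hd.le_bot ⟨hP2 hx, h3⟩
      have := touch P2 (P1 ∪ Q) h2 (h1.union hQ) h2n hdd
        (by rw [he, hP12]; ext x; simp only [mem_union]; tauto)
      rcases this with h3 | h3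
      · have := huniq _ (Or.inl rfl) (hP2 h3)
        rw [this] at h3
        exact h12.le_bot ⟨ha1, h3⟩
      · have := huniq _ (Or.inr rfl) (hP2 h3)
        rw [this] at h3
        exact h12.le_bot ⟨ha1, h3⟩
    have haP : a ∈ P1 ∪ P2 := by rw [← hP12]; exact ha
    rcases haP with h3 | h3
    · exact aux P1 P2 h1 h2 h2n h12 hP12 h3
    · exact aux P2 P1 h2 h1 h1n h12.symm (by rw [hP12, union_comm]) h3
  have main : ∀ P Q : Set E, IsClosed P → IsClosed Q → P.Nonempty → Q.Nonempty →
      Disjoint P Q → X \ ball c s = P ∪ Q → c - s • u ∈ P → ∃ P Q : Set E, Split X c u s P Q := by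
    intro P Q hP hQ hPn hQn hd he hl
    have hr : c + s • u ∈ Q := by
      rcases touch Q P hQ hP hQn hd.symm (by rw [he, union_comm]) with h1 | h1
      · exact (hd.le_bot ⟨hl, h1⟩).elim
      · exact h1
    refine ⟨P, Q, hP, hQ, ?_, ?_, hd, he, hl, hr⟩
    · apply conn P Q _ hP hQ hPn hd he hl
      rintro b (rfl | rfl) hb
      · rfl
      · exact (hd.le_bot ⟨hb, hr⟩).elim
    · apply conn Q P _ hQ hP hQn hd.symm (by rw [he, union_comm]) hr
      rintro b (rfl | rfl) hb
      · exact (hd.le_bot ⟨hl, hb⟩).elim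
      · rfl
  have hlY : c - s • u ∈ X \ ball c s := by
    refine ⟨h.mem_left, ?_⟩
    have := h.left_sphere
    rw [mem_sphere] at this
    rw [mem_ball, this]; exact lt_irrefl _
  rw [he] at hlY
  rcases hlY with h1 | h1
  · exact main P Q hP hQ hPn hQn hd he h1
  · exact main Q P hQ hP hQn hPn hd.symm (by rw [he, union_comm]) h1

end Pool.Agent.Helper5.Steiner
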