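import Pool.Agent.Helper5.Steiner.Basic

/-!
An elementary coarea (Eilenberg type) inequality for the distance to the origin.
-/

open MeasureTheory MeasureTheory.Measure Set Metric Topology
open scoped ENNReal NNReal

set_option linter.unusedSectionVars false

namespace Pool.Agent.Helper5.Steiner

variable {E : Type*} [NormedAddCommGroup E] [InnerProductSpace ℝ E] [MeasurableSpace E]
  [BorelSpace E] [SecondCountableTopology E]

/-- If every sphere of radius in `(a, b)` contains at least `k` points of the closed set `X`, then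
`X` has length at least `k (b - a)` in the shell. -/
theorem coarea {X : Set E} (hX : IsClosed X) {a b : ℝ} (hab : a < b) (k : ℕ)
    (h : ∀ ρ ∈ Ioo a b, (k : ℕ∞) ≤ (X ∩ sphere 0 ρ).encard) :
    (k : ℝ≥0∞) * ENNReal.ofReal (b - a) ≤ μH[1] (X ∩ {x : E | a < ‖x‖ ∧ ‖x‖ < b}) := by
  classical
  set A : Set E := X ∩ {x : E | a < ‖x‖ ∧ ‖x‖ < b} with hA
  have hAm : MeasurableSet A := by
    apply hX.measurableSet.inter
    exact ((isOpen_lt continuous_const continuous_norm).inter
      (isOpen_lt continuous_norm continuous_const)).measurableSet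
  -- radii with separated points
  set R : ℕ → Set ℝ := fun n => {ρ | ρ ∈ Ioo a b ∧ ∃ f : Fin k → E,
    (∀ i, f i ∈ X ∧ ‖f i‖ = ρ) ∧ ∀ i j, i ≠ j → 1 / ((n : ℝ) + 1) ≤ dist (f i) (f j)} with hR
  have hmono : Monotone R := by
    intro m n hmn ρ hρ
    obtain ⟨h1, f, h2, h3⟩ := hρ
    refine ⟨h1, f, h2, fun i j hij => le_trans ?_ (h3 i j hij)⟩
    apply one_div_le_one_div_of_le (by positivity)
    have : (m : ℝ) ≤ n := by exact_mod_cast hmn
    linarith
  have hunion : (⋃ n, R n) = Ioo a b := by
    ext ρ
    rw [mem_iUnion]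
    constructor
    · rintro ⟨n, hn⟩; exact hn.1
    · intro hρ
      obtain ⟨t, ht, htk⟩ := exists_subset_encard_eq (h ρ hρ)
      have htf : t.Finite := finite_of_encard_eq_coe htk
      have hcard : htf.toFinset.card = k := by
        have := htf.encard_eq_coe_toFinset_card
        rw [htk] at this
        exact_mod_cast this.symm
      set e := htf.toFinset.equivFinOfCardEq hcard with he
      set f : Fin k → E := fun i => (e.symm i : E) with hf
      have hfinj : Function.Injective f := fun i j hij => e.symm.injective (Subtype.ext hij)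
      have hfm : ∀ i, f i ∈ X ∧ ‖f i‖ = ρ := by
        intro i
        have h1 : f i ∈ t := by
          have := (e.symm i).2
          rwa [Set.Finite.mem_toFinset] at this
        have h2 := ht h1
        refine ⟨h2.1, ?_⟩
        have := h2.2
        rwa [mem_sphere_zero_iff_norm] at this
      -- minimal distance
      have hev : ∀ i j, ∃ n0 : ℕ, ∀ n ≥ n0, i ≠ j → 1 / ((n : ℝ) + 1) ≤ dist (f i) (f j) := by
        intro i j
        by_cases hij : i = j
        · exact ⟨0, fun _ _ h => (h hij).elim⟩
        · have hd : 0 < dist (f i) (f j) := dist_pos.2 (fun h => hij (hfinj h))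
          obtain ⟨n0, hn0⟩ := exists_nat_one_div_lt hd
          refine ⟨n0, fun n hn _ => le_trans ?_ hn0.le⟩
          apply one_div_le_one_div_of_le (by positivity)
          have : (n0 : ℝ) ≤ n := by exact_mod_cast hn
          linarith
      choose n0 hn0 using hev
      refine ⟨Finset.univ.sup (fun i => Finset.univ.sup (fun j => n0 i j)), hρ, f, hfm, ?_⟩
      intro i j hij
      apply hn0 i j _ _ hij
      calc n0 i j ≤ Finset.univ.sup (fun j => n0 i j) :=
            Finset.le_sup (f := fun j => n0 i j) (Finset.mem_univ j)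
        _ ≤ _ := Finset.le_sup (f := fun i => Finset.univ.sup (fun j => n0 i j))
            (Finset.mem_univ i)
  -- the estimate for fixed n
  have key : ∀ n, (k : ℝ≥0∞) * volume (R n) ≤ μH[1] A := by
    intro n
    set δ : ℝ := 1 / ((n : ℝ) + 1) with hδ
    have hδpos : 0 < δ := by positivity
    obtain ⟨D, hDm, hDd, hDu, hDδ⟩ : ∃ D : ℕ → Set E, (∀ i, MeasurableSet (D i)) ∧
        Pairwise (Function.onFun Disjoint D) ∧ (⋃ i, D i) = univ ∧
        ∀ i, ∀ x ∈ D i, ∀ y ∈ D i, dist x y < δ := by
      refine ⟨disjointed (fun i => ball (TopologicalSpace.denseSeq E i) (δ / 2)), ?_, ?_, ?_, ?_⟩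
      · intro i
        exact MeasurableSet.disjointed (fun i => measurableSet_ball) i
      · exact disjoint_disjointed _
      · rw [iUnion_disjointed, eq_univ_iff_forall]
        intro x
        rw [mem_iUnion]
        obtain ⟨y, hxy⟩ := (TopologicalSpace.denseRange_denseSeq E).exists_dist_lt x
          (half_pos hδpos)
        exact ⟨y, hxy⟩
      · intro i x hx y hy
        have h1 := disjointed_subset _ i hx
        have h2 := disjointed_subset _ i hy
        rw [mem_ball] at h1 h2
        calc dist x y ≤ dist x (TopologicalSpace.denseSeq E i) +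
              dist y (TopologicalSpace.denseSeq E i) := dist_triangle_right _ _ _
          _ < δ / 2 + δ / 2 := add_lt_add h1 h2
          _ = δ := by ring
    set G : ℕ → Set ℝ := fun i => toMeasurable volume ((fun x : E => ‖x‖) '' (A ∩ D i)) with hG
    have hGm : ∀ i, MeasurableSet (G i) := fun i => measurableSet_toMeasurable _ _
    have hGle : ∀ i, volume (G i) ≤ μH[1] (A ∩ D i) := by
      intro i
      rw [hG]
      simp only
      rw [measure_toMeasurable]
      calc volume ((fun x : E => ‖x‖) '' (A ∩ D i))
          = μH[1] ((fun x : E => ‖x‖) '' (A ∩ D i)) := by rw [hausdorffMeasure_real]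
        _ ≤ ((1 : ℝ≥0) : ℝ≥0∞) ^ (1 : ℝ) * μH[1] (A ∩ D i) :=
            lipschitzWith_one_norm.hausdorffMeasure_image_le zero_le_one _
        _ = _ := by simp
    set F : ℝ → ℝ≥0∞ := fun ρ => ∑' i, (G i).indicator (fun _ => (1 : ℝ≥0∞)) ρ with hF
    have hFm : Measurable F := by
      apply Measurable.tsum
      intro i
      exact measurable_const.indicator (hGm i)
    have hint : ∫⁻ ρ, F ρ = ∑' i, volume (G i) := by
      rw [hF]
      rw [lintegral_tsum (fun i => (measurable_const.indicator (hGm i)).aemeasurable)]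
      congr 1
      ext i
      rw [lintegral_indicator (hGm i), setLIntegral_one]
    have hsubR : R n ⊆ {ρ | (k : ℝ≥0∞) ≤ F ρ} := by
      rintro ρ ⟨hρ, f, hf, hfd⟩
      show (k : ℝ≥0∞) ≤ F ρ
      have hex : ∀ i, ∃ m, f i ∈ D m := by
        intro i
        have : f i ∈ ⋃ m, D m := by rw [hDu]; exact mem_univ _
        rwa [mem_iUnion] at this
      choose m hm using hex
      have hminj : Function.Injective m := by
        intro i j hij
        by_contra hne
        have h1 := hDδ (m i) (f i) (hm i) (f j) (hij ▸ hm j)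
        exact absurd (hfd i j hne) (not_le.2 h1)
      have hone : ∀ i, (G (m i)).indicator (fun _ => (1 : ℝ≥0∞)) ρ = 1 := by
        intro i
        rw [indicator_of_mem]
        apply subset_toMeasurable
        refine ⟨f i, ⟨⟨(hf i).1, ?_⟩, hm i⟩, (hf i).2⟩
        show a < ‖f i‖ ∧ ‖f i‖ < b
        rw [(hf i).2]; exact hρ
      calc (k : ℝ≥0∞) = ∑ i : Fin k, (G (m i)).indicator (fun _ => (1 : ℝ≥0∞)) ρ := by
            rw [Finset.sum_congr rfl (fun i _ => hone i)]; simp
        _ = ∑ j ∈ Finset.univ.image m, (G j).indicator (fun _ => (1 : ℝ≥0∞)) ρ := by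
            rw [Finset.sum_image (fun i _ j _ hij => hminj hij)]
        _ ≤ F ρ := ENNReal.sum_le_tsum _
    calc (k : ℝ≥0∞) * volume (R n) ≤ (k : ℝ≥0∞) * volume {ρ | (k : ℝ≥0∞) ≤ F ρ} := by
          gcongr
      _ ≤ ∫⁻ ρ, F ρ := mul_meas_ge_le_lintegral hFm _
      _ = ∑' i, volume (G i) := hint
      _ ≤ ∑' i, μH[1] (A ∩ D i) := ENNReal.tsum_le_tsum hGle
      _ = μH[1] (⋃ i, A ∩ D i) := by
          rw [measure_iUnion]
          · intro i j hij
            exact (hDd hij).mono inter_subset_right inter_subset_right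
          · intro i; exact hAm.inter (hDm i)
      _ = μH[1] A := by rw [← inter_iUnion, hDu, inter_univ]
  have hsup : volume (Ioo a b) = ⨆ n, volume (R n) := by
    rw [← hunion]; exact hmono.measure_iUnion
  rw [← Real.volume_Ioo, hsup, ENNReal.mul_iSup]
  exact iSup_le key

end Pool.Agent.Helper5.Steiner
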