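import Pool.Agent.Helper5.Steiner.Basic

/-!
Short connected sets through `m` given points of the unit ball.
-/

open MeasureTheory MeasureTheory.Measure Set Metric Topology
open scoped ENNReal NNReal

set_option linter.unusedSectionVars false

namespace Pool.Agent.Helper5.Steiner

variable {E : Type*} [NormedAddCommGroup E] [InnerProductSpace ℝ E] [MeasurableSpace E]
  [BorelSpace E] [FiniteDimensional ℝ E]

theorem rpow_aux {d : ℕ} (hd : 1 ≤ d) {m : ℝ} (hm : 0 < m) :
    m * (2 * m ^ (-(1 / (d : ℝ)))) ^ d = 2 ^ d := by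
  have hd0 : (d : ℝ) ≠ 0 := by have : 0 < d := hd; positivity
  rw [mul_pow, ← Real.rpow_natCast (m ^ (-(1 / (d : ℝ)))) d, ← Real.rpow_mul hm.le]
  have : -(1 / (d : ℝ)) * d = -1 := by field_simp
  rw [this, Real.rpow_neg_one]
  field_simp

/-- Among `m ≥ 2` points of the unit ball two are at distance at most `4 m^(-1/d)`. -/
theorem exists_close {d : ℕ} (hd : 1 ≤ d) (hfr : Module.finrank ℝ E = d) (V : Finset E)
    (hV : ∀ v ∈ V, ‖v‖ ≤ 1) (h2 : 2 ≤ V.card) :
    ∃ v ∈ V, ∃ w ∈ V, v ≠ w ∧ dist v w ≤ 4 * (V.card : ℝ) ^ (-(1 / (d : ℝ))) := by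
  by_contra hcon
  push Not at hcon
  set m : ℝ := (V.card : ℝ) with hm
  have hm0 : 0 < m := by rw [hm]; have : 0 < V.card := by omega
                         positivity
  set ρ : ℝ := 2 * m ^ (-(1 / (d : ℝ))) with hρ
  have hρ0 : 0 < ρ := by positivity
  have hfar : ∀ v ∈ V, ∀ w ∈ V, v ≠ w → 2 * ρ < dist v w := by
    intro v hv w hw hvw
    have := hcon v hv w hw hvw
    rw [hρ]; linarith
  have hρ1 : ρ < 1 := by
    obtain ⟨v, hv, w, hw, hvw⟩ := Finset.one_lt_card.1 (by omega : 1 < V.card)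
    have h1 := hfar v hv w hw hvw
    have h3 : dist v w ≤ 2 := by
      rw [dist_eq_norm]
      have := norm_sub_le v w
      have := hV v hv; have := hV w hw
      linarith
    linarith
  set μ : Measure E := MeasureTheory.Measure.addHaar with hμ
  have hdisj : ((V : Set E)).PairwiseDisjoint (fun v => ball v ρ) := by
    intro v hv w hw hvw
    apply ball_disjoint_ball
    have := hfar v hv w hw hvw
    linarith
  have hsum : μ (⋃ v ∈ V, ball v ρ) = ∑ v ∈ V, μ (ball v ρ) :=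
    measure_biUnion_finset hdisj (fun _ _ => measurableSet_ball)
  have hle : μ (⋃ v ∈ V, ball v ρ) ≤ μ (ball 0 (1 + ρ)) := by
    apply measure_mono
    intro x hx
    simp only [mem_iUnion, exists_prop] at hx
    obtain ⟨v, hv, hx⟩ := hx
    rw [mem_ball, dist_eq_norm] at hx
    rw [mem_ball_zero_iff]
    calc ‖x‖ = ‖v + (x - v)‖ := by congr 1; abel
      _ ≤ ‖v‖ + ‖x - v‖ := norm_add_le _ _
      _ < 1 + ρ := by have := hV v hv; linarith
  have hball : ∀ v : E, μ (ball v ρ) = ENNReal.ofReal (ρ ^ d) * μ (ball 0 1) := by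
    intro v
    rw [addHaar_ball_of_pos μ v hρ0, hfr]
  rw [hsum, Finset.sum_congr rfl (fun v _ => hball v), Finset.sum_const, nsmul_eq_mul,
    addHaar_ball_of_pos μ 0 (by positivity : (0 : ℝ) < 1 + ρ), hfr, ← mul_assoc] at hle
  have hb0 : μ (ball (0 : E) 1) ≠ 0 := (measure_ball_pos μ 0 one_pos).ne'
  have hbt : μ (ball (0 : E) 1) ≠ ∞ := measure_ball_lt_top.ne
  have h4 := (ENNReal.mul_le_mul_iff_left hb0 hbt).1 hle
  have h5 : (V.card : ℝ≥0∞) * ENNReal.ofReal (ρ ^ d) = ENNReal.ofReal (m * ρ ^ d) := by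
    rw [ENNReal.ofReal_mul hm0.le, hm, ENNReal.ofReal_natCast]
  rw [h5, ENNReal.ofReal_le_ofReal_iff (by positivity), hρ, rpow_aux hd hm0, ← hρ] at h4
  have h6 : (1 + ρ) ^ d < 2 ^ d := pow_lt_pow_left₀ (by linarith) (by positivity) (by omega)
  linarith

/-- The growth estimate behind the induction. -/
theorem growth_aux {d : ℕ} (hd : 2 ≤ d) (m : ℕ) (hm : 1 ≤ m) :
    8 * (m : ℝ) ^ (1 - 1 / (d : ℝ)) + 4 * ((m + 1 : ℕ) : ℝ) ^ (-(1 / (d : ℝ))) ≤
      8 * ((m + 1 : ℕ) : ℝ) ^ (1 - 1 / (d : ℝ)) := by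
  set a : ℝ := 1 - 1 / (d : ℝ) with ha
  set M : ℝ := ((m + 1 : ℕ) : ℝ) with hM
  have hd2 : (2 : ℝ) ≤ d := by exact_mod_cast hd
  have h1d : 1 / (d : ℝ) ≤ 1 / 2 := one_div_le_one_div_of_le (by norm_num) hd2
  have h1d0 : 0 < 1 / (d : ℝ) := by positivity
  have ha1 : 1 / 2 ≤ a := by rw [ha]; linarith
  have ha2 : a ≤ 1 := by rw [ha]; linarith
  have hm1 : (1 : ℝ) ≤ m := by exact_mod_cast hm
  have hMm : M = m + 1 := by rw [hM]; push_cast; ring
  have hM0 : 0 < M := by rw [hMm]; linarith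
  have h1 : (m : ℝ) = M * (1 + -(1 / M)) := by rw [hMm]; field_simp; ring
  have h2 : (m : ℝ) ^ a ≤ M ^ a * (1 + a * -(1 / M)) := by
    have h3 : -1 ≤ -(1 / M) := by
      have : 1 / M ≤ 1 := by rw [div_le_one hM0]; linarith
      linarith
    have h3' : 0 ≤ 1 + -(1 / M) := by linarith
    calc (m : ℝ) ^ a = (M * (1 + -(1 / M))) ^ a := by rw [← h1]
      _ = M ^ a * (1 + -(1 / M)) ^ a := Real.mul_rpow hM0.le h3'
      _ ≤ M ^ a * (1 + a * -(1 / M)) := by
          gcongr
          exact rpow_one_add_le_one_add_mul_self h3 (by linarith) ha2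
  have h4 : M ^ a * (1 / M) = M ^ (-(1 / (d : ℝ))) := by
    have : -(1 / (d : ℝ)) = a - 1 := by rw [ha]; ring
    rw [this, Real.rpow_sub_one hM0.ne']; ring
  have h5 : 0 < M ^ (-(1 / (d : ℝ))) := by positivity
  have h6 : M ^ a * (1 + a * -(1 / M)) = M ^ a - a * M ^ (-(1 / (d : ℝ))) := by
    rw [← h4]; ring
  rw [h6] at h2
  nlinarith

theorem network {d : ℕ} (hd : 2 ≤ d) (hfr : Module.finrank ℝ E = d) : ∀ m : ℕ, 1 ≤ m →
    ∀ V : Finset E, V.card = m → (∀ v ∈ V, ‖v‖ ≤ 1) →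
    ∃ K : Set E, IsCompact K ∧ IsConnected K ∧ (V : Set E) ⊆ K ∧
      μH[1] K ≤ ENNReal.ofReal (8 * (m : ℝ) ^ (1 - 1 / (d : ℝ))) := by
  classical
  intro m hm
  induction m, hm using Nat.le_induction with
  | base =>
    intro V hV _
    obtain ⟨v, rfl⟩ := Finset.card_eq_one.1 hV
    refine ⟨{v}, isCompact_singleton, isConnected_singleton, by simp, ?_⟩
    have : NullSingletonClass (μH[1] : Measure E) := nullSingletonClass_hausdorff E one_pos
    rw [measure_singleton]; exact zero_le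
  | succ m hm ih =>
    intro V hV hV1
    obtain ⟨v, hv, w, hw, hvw, hd'⟩ := exists_close (by omega) hfr V hV1 (by omega)
    have hcard : (V.erase v).card = m := by rw [Finset.card_erase_of_mem hv, hV]; rfl
    obtain ⟨K, hK, hKc, hKV, hKm⟩ := ih (V.erase v) hcard
      (fun x hx => hV1 x (Finset.mem_of_mem_erase hx))
    have hwK : w ∈ K := hKV (by simp [hw, hvw.symm])
    have hseg : IsCompact (segment ℝ w v) := by
      rw [segment_eq_image']
      exact isCompact_Icc.image (by fun_prop)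
    refine ⟨K ∪ segment ℝ w v, hK.union hseg, ?_, ?_, ?_⟩
    · exact hKc.union ⟨w, hwK, left_mem_segment ℝ _ _⟩
        ⟨⟨w, left_mem_segment ℝ _ _⟩, (convex_segment _ _).isPreconnected⟩
    · intro x hx
      by_cases hxv : x = v
      · rw [hxv]; exact Or.inr (right_mem_segment ℝ _ _)
      · exact Or.inl (hKV (by
          rw [Finset.mem_coe, Finset.mem_erase]; exact ⟨hxv, hx⟩))
    · rw [hV] at hd'
      calc μH[1] (K ∪ segment ℝ w v) ≤ μH[1] K + μH[1] (segment ℝ w v) := measure_union_le _ _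
        _ ≤ ENNReal.ofReal (8 * (m : ℝ) ^ (1 - 1 / (d : ℝ))) + ENNReal.ofReal (dist v w) := by
            gcongr
            rw [hausdorffMeasure_segment, edist_dist, dist_comm]
        _ = ENNReal.ofReal (8 * (m : ℝ) ^ (1 - 1 / (d : ℝ)) + dist v w) := by
            rw [ENNReal.ofReal_add (by positivity) dist_nonneg]
        _ ≤ ENNReal.ofReal (8 * ((m + 1 : ℕ) : ℝ) ^ (1 - 1 / (d : ℝ))) := by
            apply ENNReal.ofReal_le_ofReal
            have := growth_aux hd m hm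
            linarith

end Pool.Agent.Helper5.Steiner
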