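import Pool.Agent.Helper5.Steiner.Count
import Pool.Agent.Helper5.Steiner.Network
import Pool.Agent.Helper5.Steiner.Coarea

/-!
Interior length bound for Steiner trees whose terminals lie outside the open unit ball.
-/

open MeasureTheory MeasureTheory.Measure Set Metric Topology
open scoped ENNReal NNReal

set_option linter.unusedSectionVars false

namespace Pool.Agent.Helper5.Steiner

variable {E : Type*} [NormedAddCommGroup E] [InnerProductSpace ℝ E] [MeasurableSpace E]
  [BorelSpace E]

/-- Replacing the part inside a ball by a continuum through the points on the sphere. -/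
theorem IsSteiner.replace {A X : Set E} (hX : IsSteiner A X) (hfin : μH[1] X ≠ ∞) {ρ : ℝ}
    (hA : Disjoint A (ball 0 ρ)) {K : Set E} (hK : IsCompact K) (hKc : IsConnected K)
    (hKX : X ∩ sphere 0 ρ ⊆ K) : μH[1] (X ∩ ball 0 ρ) ≤ μH[1] K := by
  by_cases hne : (X ∩ closedBall 0 ρ).Nonempty
  · have hXc := hX.compact.isClosed
    have hYcl : IsClosed (X \ ball 0 ρ) := hXc.sdiff isOpen_ball
    have key : ∀ P Q : Set E, IsClosed P → IsClosed Q → Q.Nonempty → Disjoint P Q →
        (X \ ball 0 ρ) ∪ K = P ∪ Q → K ⊆ P → False := by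
      intro P Q hP hQ hQn hd he hKP
      have hQs : Q ⊆ X \ ball 0 ρ := by
        intro x hx
        have : x ∈ (X \ ball 0 ρ) ∪ K := by rw [he]; exact Or.inr hx
        rcases this with h | h
        · exact h
        · exact (hd.le_bot ⟨hKP h, hx⟩).elim
      have hR : IsClosed ((X ∩ closedBall 0 ρ) ∪ ((X \ ball 0 ρ) ∩ P)) :=
        (hXc.inter isClosed_closedBall).union (hYcl.inter hP)
      apply no_split hX.conn.isPreconnected hQ hR _ _ hQn (hne.mono subset_union_left)
      · ext x
        constructor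
        · intro hx
          by_cases hxb : x ∈ ball 0 ρ
          · exact Or.inr (Or.inl ⟨hx, ball_subset_closedBall hxb⟩)
          · have : x ∈ P ∪ Q := by rw [← he]; exact Or.inl ⟨hx, hxb⟩
            rcases this with h | h
            · exact Or.inr (Or.inr ⟨⟨hx, hxb⟩, h⟩)
            · exact Or.inl h
        · rintro (h | h | h)
          · exact (hQs h).1
          · exact h.1
          · exact h.1.1
      · rw [Set.disjoint_left]
        rintro x hxQ (h | h)
        · have h1 := (hQs hxQ).2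
          have h2 := h.2
          rw [mem_ball, not_lt] at h1
          rw [mem_closedBall] at h2
          exact hd.le_bot ⟨hKP (hKX ⟨h.1, by rw [mem_sphere]; exact le_antisymm h2 h1⟩), hxQ⟩
        · exact hd.le_bot ⟨h.2, hxQ⟩
    have hconn : IsConnected ((X \ ball 0 ρ) ∪ K) := by
      refine ⟨hKc.nonempty.mono subset_union_right, ?_⟩
      by_contra hn
      obtain ⟨P, Q, hP, hQ, hPn, hQn, hd, he⟩ := split_of_not (hYcl.union hK.isClosed) hn
      have hKs : K ⊆ P ∪ Q := by rw [← he]; exact subset_union_right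
      obtain ⟨x, hx⟩ := hKc.nonempty
      rcases hKs hx with h | h
      · exact key P Q hP hQ hQn hd he
          (sub_of_meets hP hQ hd hKc.isPreconnected hKs ⟨x, hx, h⟩)
      · exact key Q P hQ hP hPn hd.symm (by rw [he, union_comm])
          (sub_of_meets hQ hP hd.symm hKc.isPreconnected (by rw [union_comm]; exact hKs)
            ⟨x, hx, h⟩)
    have h1 := hX.min _ ((hX.compact.diff isOpen_ball).union hK) hconn
      (fun a ha => Or.inl ⟨hX.sub ha, fun hb => hA.le_bot ⟨ha, hb⟩⟩)
    have h2 := h1.trans (measure_union_le _ _)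
    rw [← meas_split X 0 ρ, add_comm] at h2
    have h4 : μH[1] (X \ ball 0 ρ) ≠ ∞ := ne_top_of_le_ne_top hfin (measure_mono sdiff_subset)
    exact (ENNReal.add_le_add_iff_left h4).1 h2
  · have : X ∩ ball 0 ρ = ∅ := by
      rw [eq_empty_iff_forall_notMem]
      intro x hx
      exact hne ⟨x, hx.1, ball_subset_closedBall hx.2⟩
    rw [this, measure_empty]; exact zero_le

theorem IsSteiner.inner_le [FiniteDimensional ℝ E] {d : ℕ} (hd : 2 ≤ d)
    (hfr : Module.finrank ℝ E = d) {A X : Set E} (hX : IsSteiner A X)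
    (hfin : μH[1] X ≠ ∞) {ρ : ℝ} (hρ : ρ ≤ 1) (hA : Disjoint A (ball 0 ρ)) {k : ℕ}
    (hk : (X ∩ sphere 0 ρ).encard ≤ k) :
    μH[1] (X ∩ ball 0 ρ) ≤ ENNReal.ofReal (8 * (k : ℝ) ^ (1 - 1 / (d : ℝ))) := by
  have hf : (X ∩ sphere 0 ρ).Finite := finite_of_encard_le_coe hk
  by_cases hne : (X ∩ sphere 0 ρ).Nonempty
  · have hcard : hf.toFinset.card ≤ k := by
      have := hf.encard_eq_coe_toFinset_card
      rw [this] at hk
      exact_mod_cast hk
    have hc1 : 1 ≤ hf.toFinset.card := by
      rw [Nat.one_le_iff_ne_zero, Finset.card_ne_zero, Set.Finite.toFinset_nonempty]; exact hne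
    obtain ⟨K, hK, hKc, hKV, hKm⟩ := network hd hfr hf.toFinset.card hc1 hf.toFinset rfl (by
      intro v hv
      rw [Set.Finite.mem_toFinset] at hv
      have := hv.2
      rw [mem_sphere_zero_iff_norm] at this
      rw [this]; exact hρ)
    rw [Set.Finite.coe_toFinset] at hKV
    refine (hX.replace hfin hA hK hKc hKV).trans (hKm.trans ?_)
    apply ENNReal.ofReal_le_ofReal
    have hd2 : (2 : ℝ) ≤ d := by exact_mod_cast hd
    have h1d : 1 / (d : ℝ) ≤ 1 / 2 := one_div_le_one_div_of_le (by norm_num) hd2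
    have : ((hf.toFinset.card : ℕ) : ℝ) ≤ k := by exact_mod_cast hcard
    gcongr
    linarith
  · have h1 : X ∩ sphere 0 ρ ⊆ {0} := by
      rw [Set.not_nonempty_iff_eq_empty.1 hne]; exact empty_subset _
    have h2 := hX.replace hfin hA isCompact_singleton isConnected_singleton h1
    have : NullSingletonClass (μH[1] : Measure E) := nullSingletonClass_hausdorff E one_pos
    rw [measure_singleton] at h2
    exact h2.trans zero_le

theorem geom_aux {d : ℕ} (hd : 2 ≤ d) (j : ℕ) :
    ∑ i ∈ Finset.range j, ((2 : ℝ) ^ (-(1 / (d : ℝ)))) ^ i < 2 * d := by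
  have hd2 : (2 : ℝ) ≤ d := by exact_mod_cast hd
  have h1d : 1 / (d : ℝ) ≤ 1 / 2 := one_div_le_one_div_of_le (by norm_num) hd2
  have h1d0 : 0 < 1 / (d : ℝ) := by positivity
  set q : ℝ := (2 : ℝ) ^ (-(1 / (d : ℝ))) with hq
  have hq0 : 0 < q := by positivity
  have hq1 : q ≤ 1 - 1 / (2 * d) := by
    have h := rpow_one_add_le_one_add_mul_self (s := -(1 / 2)) (by norm_num) h1d0.le
      (by linarith : 1 / (d : ℝ) ≤ 1)
    have h2 : (1 + -(1 / 2) : ℝ) = 2⁻¹ := by norm_num
    rw [h2, Real.inv_rpow (by norm_num), ← Real.rpow_neg (by norm_num), ← hq] at h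
    have h3 : 1 + 1 / (d : ℝ) * -(1 / 2) = 1 - 1 / (2 * d) := by field_simp; ring
    rwa [h3] at h
  have hlt : q < 1 := by have : 0 < 1 / (2 * (d : ℝ)) := by positivity
                         linarith
  rw [geom_sum_eq hlt.ne j]
  have h4 : (q ^ j - 1) / (q - 1) = (1 - q ^ j) / (1 - q) := by
    rw [← neg_sub 1 (q ^ j), ← neg_sub 1 q, neg_div_neg_eq]
  rw [h4, div_lt_iff₀ (by linarith)]
  have h5 : 0 < q ^ j := by positivity
  have h6 : 1 ≤ 2 * d * (1 - q) := by
    have : 2 * (d : ℝ) * (1 / (2 * d)) = 1 := by field_simp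
    nlinarith
  linarith

/-- **Interior length bound.** If all terminals are outside the open unit ball then the length of
the Steiner tree inside the ball of radius `r < 1` is at most `8 (16 d / (1 - r))^d`. -/
theorem IsSteiner.length_le [FiniteDimensional ℝ E] {d : ℕ} (hd : 2 ≤ d)
    (hfr : Module.finrank ℝ E = d) {A X : Set E} (hX : IsSteiner A X) (hfin : μH[1] X ≠ ∞)
    (hA : Disjoint A (ball 0 1)) {r : ℝ} (hr0 : 0 ≤ r) (hr1 : r < 1) :
    μH[1] (X ∩ ball 0 r) ≤ ENNReal.ofReal (8 * (16 * d / (1 - r)) ^ d) := by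
  by_contra hcon
  rw [not_le] at hcon
  have hd2 : (2 : ℝ) ≤ d := by exact_mod_cast hd
  have h1d : 1 / (d : ℝ) ≤ 1 / 2 := one_div_le_one_div_of_le (by norm_num) hd2
  have h1d0 : 0 < 1 / (d : ℝ) := by positivity
  set β : ℝ := 1 / (d : ℝ) with hβ
  set g : ℝ := 1 - r with hg
  have hg0 : 0 < g := by rw [hg]; linarith
  have hg1 : g ≤ 1 := by rw [hg]; linarith
  set W : ℝ := 16 * d / g with hW
  have hW1 : 1 ≤ W := by rw [hW, le_div_iff₀ hg0]; nlinarith
  have hW0 : 0 < W := by linarith
  set x : ℕ → ℝ := fun j => 2 ^ j * W ^ d with hx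
  have hx1 : ∀ j, 1 ≤ x j := by
    intro j
    have h1 : (1 : ℝ) ≤ 2 ^ j := one_le_pow₀ (by norm_num)
    have h2 : (1 : ℝ) ≤ W ^ d := one_le_pow₀ hW1
    calc (1 : ℝ) = 1 * 1 := by ring
      _ ≤ x j := mul_le_mul h1 h2 (by norm_num) (by positivity)
  have hx0 : ∀ j, 0 < x j := fun j => lt_of_lt_of_le one_pos (hx1 j)
  set δ : ℕ → ℝ := fun j => 8 * x j ^ (-β) with hδ
  have hδ0 : ∀ j, 0 < δ j := fun j => by
    have := hx0 j
    show 0 < 8 * x j ^ (-β)
    positivity
  have hδe : ∀ j, δ j = g / (2 * d) * ((2 : ℝ) ^ (-β)) ^ j := by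
    intro j
    show 8 * (2 ^ j * W ^ d) ^ (-β) = _
    rw [Real.mul_rpow (by positivity) (by positivity), ← Real.rpow_natCast 2 j,
      ← Real.rpow_mul (by norm_num), ← Real.rpow_natCast W d, ← Real.rpow_mul hW0.le,
      ← Real.rpow_natCast ((2 : ℝ) ^ (-β)) j, ← Real.rpow_mul (by norm_num)]
    have h1 : (d : ℝ) * -β = -1 := by rw [hβ]; field_simp
    rw [h1, Real.rpow_neg_one, hW, mul_comm (j : ℝ) (-β)]
    field_simp
    norm_num
  set ρ : ℕ → ℝ := fun j => r + ∑ i ∈ Finset.range j, δ i with hρ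
  have hρ1 : ∀ j, ρ j < 1 := by
    intro j
    have h1 : ∑ i ∈ Finset.range j, δ i = g / (2 * d) *
        ∑ i ∈ Finset.range j, ((2 : ℝ) ^ (-β)) ^ i := by
      rw [Finset.mul_sum]; exact Finset.sum_congr rfl fun i _ => hδe i
    have h2 := geom_aux hd j
    show r + ∑ i ∈ Finset.range j, δ i < 1
    rw [h1]
    have h3 : g / (2 * d) * ∑ i ∈ Finset.range j, ((2 : ℝ) ^ (-β)) ^ i < g / (2 * d) * (2 * d) :=
      mul_lt_mul_of_pos_left h2 (by positivity)
    have h4 : g / (2 * d) * (2 * d) = g := by field_simp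
    rw [h4] at h3
    rw [hg] at h3 ⊢
    linarith
  have hρr : ∀ j, r ≤ ρ j := by
    intro j
    have : 0 ≤ ∑ i ∈ Finset.range j, δ i := Finset.sum_nonneg fun i _ => (hδ0 i).le
    show r ≤ r + _
    linarith
  have hρs : ∀ j, ρ (j + 1) = ρ j + δ j := by
    intro j
    show r + ∑ i ∈ Finset.range (j + 1), δ i = r + ∑ i ∈ Finset.range j, δ i + δ j
    rw [Finset.sum_range_succ]; ring
  have hAρ : ∀ s : ℝ, s ≤ 1 → Disjoint A (ball 0 s) := fun s hs =>
    hA.mono_right (ball_subset_ball hs)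
  have main : ∀ j, ENNReal.ofReal (8 * x j) ≤ μH[1] (X ∩ ball 0 (ρ j)) := by
    intro j
    induction j with
    | zero =>
      have h1 : ρ 0 = r := by simp [hρ]
      have h2 : x 0 = W ^ d := by simp [hx]
      rw [h1, h2]; exact hcon.le
    | succ j ih =>
      have hsph : ∀ s ∈ Ioo (ρ j) (ρ (j + 1)),
          ((⌈x j ^ (1 + β)⌉₊ : ℕ) : ℕ∞) ≤ (X ∩ sphere 0 s).encard := by
        intro s hs
        by_contra hlt
        rw [not_le] at hlt
        have hs1 : s ≤ 1 := (hs.2.trans (hρ1 (j + 1))).le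
        obtain ⟨k, hk⟩ := ENat.ne_top_iff_exists.1 (ne_top_of_lt hlt)
        rw [← hk] at hlt
        have hkM : k < ⌈x j ^ (1 + β)⌉₊ := by exact_mod_cast hlt
        have hkx : (k : ℝ) < x j ^ (1 + β) := Nat.lt_ceil.1 hkM
        have h1 := hX.inner_le hd hfr hfin hs1 (hAρ s hs1) hk.symm.le
        have h2 : (k : ℝ) ^ (1 - β) < x j := by
          calc (k : ℝ) ^ (1 - β) < (x j ^ (1 + β)) ^ (1 - β) :=
                Real.rpow_lt_rpow (Nat.cast_nonneg k) hkx (by linarith)
            _ = x j ^ ((1 + β) * (1 - β)) := by rw [← Real.rpow_mul (hx0 j).le]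
            _ ≤ x j ^ (1 : ℝ) := Real.rpow_le_rpow_of_exponent_le (hx1 j) (by nlinarith)
            _ = x j := Real.rpow_one _
        have h3 : ENNReal.ofReal (8 * (k : ℝ) ^ (1 - β)) < ENNReal.ofReal (8 * x j) := by
          rw [ENNReal.ofReal_lt_ofReal_iff (by have := hx0 j; positivity)]
          linarith
        have h4 : μH[1] (X ∩ ball 0 (ρ j)) ≤ μH[1] (X ∩ ball 0 s) := by
          apply measure_mono
          exact inter_subset_inter_right _ (ball_subset_ball hs.1.le)
        exact absurd (ih.trans (h4.trans h1)) (not_le.2 h3)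
      have hlt' : ρ j < ρ (j + 1) := by rw [hρs]; have := hδ0 j; linarith
      have hco := coarea hX.compact.isClosed hlt' _ hsph
      have hsum : μH[1] (X ∩ ball 0 (ρ j)) +
          μH[1] (X ∩ {y : E | ρ j < ‖y‖ ∧ ‖y‖ < ρ (j + 1)}) ≤ μH[1] (X ∩ ball 0 (ρ (j + 1))) := by
        rw [← measure_union]
        · apply measure_mono
          rintro y (hy | hy)
          · exact ⟨hy.1, ball_subset_ball hlt'.le hy.2⟩
          · exact ⟨hy.1, by rw [mem_ball_zero_iff]; exact hy.2.2⟩
        · rw [Set.disjoint_left]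
          rintro y ⟨_, hy⟩ ⟨_, hy'⟩
          rw [mem_ball_zero_iff] at hy
          exact absurd hy'.1 (not_lt.2 hy.le)
        · apply hX.compact.isClosed.measurableSet.inter
          exact ((isOpen_lt continuous_const continuous_norm).inter
            (isOpen_lt continuous_norm continuous_const)).measurableSet
      refine le_trans ?_ hsum
      have hδρ : ρ (j + 1) - ρ j = δ j := by rw [hρs]; ring
      rw [hδρ] at hco
      have hxx : x (j + 1) = 2 * x j := by simp only [hx]; ring
      have hcl : x j ^ (1 + β) ≤ (⌈x j ^ (1 + β)⌉₊ : ℝ) := Nat.le_ceil _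
      calc ENNReal.ofReal (8 * x (j + 1))
          = ENNReal.ofReal (8 * x j) + ENNReal.ofReal (x j ^ (1 + β) * δ j) := by
            rw [← ENNReal.ofReal_add (by have := hx0 j; positivity)
              (by have := hx0 j; have := hδ0 j; positivity)]
            congr 1
            rw [hxx]
            show 8 * (2 * x j) = 8 * x j + x j ^ (1 + β) * (8 * x j ^ (-β))
            have : x j ^ (1 + β) * (8 * x j ^ (-β)) = 8 * x j := by
              have h1 : x j ^ (1 + β) * x j ^ (-β) = x j := by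
                rw [← Real.rpow_add (hx0 j)]
                have : 1 + β + -β = 1 := by ring
                rw [this, Real.rpow_one]
              calc x j ^ (1 + β) * (8 * x j ^ (-β)) = 8 * (x j ^ (1 + β) * x j ^ (-β)) := by ring
                _ = 8 * x j := by rw [h1]
            rw [this]; ring
        _ ≤ μH[1] (X ∩ ball 0 (ρ j)) +
            ((⌈x j ^ (1 + β)⌉₊ : ℕ) : ℝ≥0∞) * ENNReal.ofReal (δ j) := by
            gcongr
            rw [← ENNReal.ofReal_natCast, ← ENNReal.ofReal_mul (Nat.cast_nonneg _)]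
            apply ENNReal.ofReal_le_ofReal
            have := hδ0 j
            gcongr
        _ ≤ _ := by gcongr
  -- contradiction
  obtain ⟨j, hj⟩ := pow_unbounded_of_one_lt ((μH[1] X).toReal) (by norm_num : (1 : ℝ) < 2)
  have h1 := main j
  have h2 : μH[1] (X ∩ ball 0 (ρ j)) ≤ μH[1] X := measure_mono inter_subset_left
  have h3 : ENNReal.ofReal (2 ^ j) ≤ ENNReal.ofReal (8 * x j) := by
    apply ENNReal.ofReal_le_ofReal
    have hWd : (1 : ℝ) ≤ W ^ d := one_le_pow₀ hW1
    have : (0 : ℝ) < 2 ^ j := by positivity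
    simp only [hx]
    nlinarith
  have h4 := h3.trans (h1.trans h2)
  rw [← ENNReal.ofReal_toReal hfin, ENNReal.ofReal_le_ofReal_iff ENNReal.toReal_nonneg] at h4
  linarith

end Pool.Agent.Helper5.Steiner
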