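import Pool.Agent.Helper5.Steiner.Basic

/-!
Every segment contained in a compact set of finite length admits clean balls.
-/

open MeasureTheory MeasureTheory.Measure Set Metric Topology
open scoped ENNReal NNReal

set_option linter.unusedSectionVars false

namespace Pool.Agent.Helper5.Steiner

variable {E : Type*} [NormedAddCommGroup E] [InnerProductSpace ℝ E] [MeasurableSpace E]
  [BorelSpace E]

theorem mem_seg_iff {a u : E} {h : ℝ} (hh : 0 < h) (z : E) :
    z ∈ segment ℝ a (a + h • u) ↔ ∃ τ : ℝ, 0 ≤ τ ∧ τ ≤ h ∧ z = a + τ • u := by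
  rw [segment_eq_image']
  constructor
  · rintro ⟨θ, ⟨h0, h1⟩, rfl⟩
    refine ⟨θ * h, by positivity, by nlinarith, ?_⟩
    simp [smul_smul]
  · rintro ⟨τ, h0, h1, rfl⟩
    refine ⟨τ / h, ⟨by positivity, by rw [div_le_one hh]; exact h1⟩, ?_⟩
    simp only [add_sub_cancel_left, smul_smul]
    rw [div_mul_cancel₀ _ hh.ne']

theorem exists_clean {X : Set E} (hX : IsCompact X) (hfin : μH[1] X ≠ ∞) {a u : E} {h κ : ℝ}
    (hh : 0 < h) (hκ : 0 < κ) (hu : ‖u‖ = 1) (hseg : segment ℝ a (a + h • u) ⊆ X) :
    ∃ t s : ℝ, s < κ ∧ s < t ∧ t + s < h ∧ Clean X (a + t • u) u s := by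
  set S : Set E := segment ℝ a (a + h • u) with hS
  have hScl : IsClosed S := by
    have : IsCompact S := by
      rw [hS, segment_eq_image']
      exact isCompact_Icc.image (by fun_prop)
    exact this.isClosed
  set ν : Measure E := (μH[1] : Measure E).restrict (X \ S) with hν
  have hXS : MeasurableSet (X \ S) := hX.isClosed.measurableSet.diff hScl.measurableSet
  have hνfin : ν univ ≠ ∞ := by
    rw [hν, restrict_apply_univ]
    exact ne_top_of_le_ne_top hfin (measure_mono sdiff_subset)
  have hνS : ν S = 0 := by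
    rw [hν, Measure.restrict_apply hScl.measurableSet]
    have : S ∩ (X \ S) = ∅ := by ext x; simp
    rw [this, measure_empty]
  have ht := tendsto_measure_thickening_of_isClosed (μ := ν) (s := S)
    ⟨1, one_pos, ne_top_of_le_ne_top hνfin (measure_mono (subset_univ _))⟩ hScl
  rw [hνS] at ht
  have hev := ht.eventually_lt_const (show (0 : ℝ≥0∞) < ENNReal.ofReal (h / 2) by
    rw [ENNReal.ofReal_pos]; linarith)
  rw [eventually_nhdsWithin_iff, Metric.eventually_nhds_iff] at hev
  obtain ⟨η0, hη0, hev⟩ := hev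
  -- choose the scale
  obtain ⟨n, hn⟩ := exists_nat_gt (h / (2 * min η0 κ))
  have hmin : 0 < min η0 κ := lt_min hη0 hκ
  have hn0 : (0 : ℝ) < n := lt_of_le_of_lt (by positivity) hn
  set η : ℝ := h / (2 * n) with hη
  have hηpos : 0 < η := by rw [hη]; positivity
  have hηmin : η < min η0 κ := by
    rw [hη, div_lt_iff₀ (by positivity)]
    rw [div_lt_iff₀ (by positivity)] at hn
    nlinarith
  have hnη : n * (2 * η) = h := by rw [hη]; field_simp
  by_contra hcon
  push Not at hcon
  -- every ball has large extra mass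
  have hball : ∀ k ∈ Finset.range n, ENNReal.ofReal η ≤
      ν (ball (a + ((2 * (k : ℝ) + 1) * η) • u) η) := by
    intro k hk
    rw [Finset.mem_range] at hk
    set t : ℝ := (2 * (k : ℝ) + 1) * η with ht'
    have hk0 : (0 : ℝ) ≤ k := Nat.cast_nonneg k
    have hkn : (k : ℝ) + 1 ≤ n := by exact_mod_cast hk
    have htη : η ≤ t := by rw [ht']; nlinarith
    have htη' : t + η ≤ h := by rw [ht', ← hnη]; nlinarith
    rw [hν, Measure.restrict_apply measurableSet_ball]
    have hsub : Ioo 0 η ⊆ (fun z => dist z (a + t • u)) '' (ball (a + t • u) η ∩ (X \ S)) := by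
      rintro s ⟨hs0, hsη⟩
      have hnc := hcon t s (lt_trans hsη (lt_of_lt_of_le hηmin (min_le_right _ _)))
        (by linarith) (by linarith)
      -- the sphere contains an extra point
      have hsegX : segment ℝ (a + t • u - s • u) (a + t • u + s • u) ⊆ X := by
        refine subset_trans ?_ hseg
        apply (convex_segment _ _).segment_subset
        · rw [mem_seg_iff hh]
          exact ⟨t - s, by linarith, by linarith, by rw [sub_smul]; abel⟩
        · rw [mem_seg_iff hh]
          exact ⟨t + s, by linarith, by linarith, by rw [add_smul]; abel⟩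
      have hex : ∃ z, z ∈ X ∧ dist z (a + t • u) = s ∧ z ≠ a + t • u - s • u ∧
          z ≠ a + t • u + s • u := by
        by_contra hno
        push Not at hno
        apply hnc
        refine ⟨hs0, hu, hsegX, ?_⟩
        ext z
        constructor
        · rintro ⟨hzX, hzs⟩
          rw [mem_sphere] at hzs
          by_cases h1 : z = a + t • u - s • u
          · exact Or.inl h1
          · exact Or.inr (hno z hzX hzs h1)
        · rintro (h1 | h1)
          · rw [h1]
            refine ⟨hsegX (left_mem_segment ℝ _ _), ?_⟩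
            rw [mem_sphere, dist_eq_norm]
            simp [norm_smul, hu, abs_of_pos hs0]
          · rw [mem_singleton_iff] at h1
            rw [h1]
            refine ⟨hsegX (right_mem_segment ℝ _ _), ?_⟩
            rw [mem_sphere, dist_eq_norm]
            simp [norm_smul, hu, abs_of_pos hs0]
      obtain ⟨z, hzX, hzs, hz1, hz2⟩ := hex
      refine ⟨z, ⟨by rw [mem_ball, hzs]; exact hsη, hzX, ?_⟩, hzs⟩
      intro hzS
      rw [hS, mem_seg_iff hh] at hzS
      obtain ⟨τ, _, _, hzτ⟩ := hzS
      have h1 : dist z (a + t • u) = |τ - t| := by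
        rw [hzτ, dist_eq_norm]
        have : a + τ • u - (a + t • u) = (τ - t) • u := by rw [sub_smul]; abel
        rw [this, norm_smul, hu, mul_one, Real.norm_eq_abs]
      rw [hzs] at h1
      rcases abs_eq hs0.le |>.1 h1.symm with h2 | h2
      · apply hz2
        rw [hzτ]
        have : τ = t + s := by linarith
        rw [this, add_smul]; abel
      · apply hz1
        rw [hzτ]
        have : τ = t - s := by linarith
        rw [this, sub_smul]; abel
    calc ENNReal.ofReal η = volume (Ioo 0 η) := by rw [Real.volume_Ioo, sub_zero]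
      _ ≤ volume ((fun z => dist z (a + t • u)) '' (ball (a + t • u) η ∩ (X \ S))) :=
          measure_mono hsub
      _ = μH[1] ((fun z => dist z (a + t • u)) '' (ball (a + t • u) η ∩ (X \ S))) := by
          rw [hausdorffMeasure_real]
      _ ≤ ((1 : ℝ≥0) : ℝ≥0∞) ^ (1 : ℝ) * μH[1] (ball (a + t • u) η ∩ (X \ S)) :=
          (LipschitzWith.dist_left (a + t • u)).hausdorffMeasure_image_le zero_le_one _
      _ = μH[1] (ball (a + t • u) η ∩ (X \ S)) := by simp
  -- the balls are disjoint and inside the thickening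
  have hdisj : ((Finset.range n : Finset ℕ) : Set ℕ).PairwiseDisjoint
      (fun k : ℕ => ball (a + ((2 * (k : ℝ) + 1) * η) • u) η) := by
    intro k _ l _ hkl
    apply Metric.ball_disjoint_ball
    rw [dist_eq_norm]
    have : a + ((2 * (k : ℝ) + 1) * η) • u - (a + ((2 * (l : ℝ) + 1) * η) • u)
        = (2 * η * ((k : ℝ) - l)) • u := by
      rw [add_sub_add_left_eq_sub, ← sub_smul]; congr 1; ring
    rw [this, norm_smul, hu, mul_one, Real.norm_eq_abs, abs_mul, abs_of_pos (by positivity)]
    have h1 : (1 : ℝ) ≤ |(k : ℝ) - l| := by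
      have : (1 : ℤ) ≤ |(k : ℤ) - l| := Int.one_le_abs (sub_ne_zero.2 (by exact_mod_cast hkl))
      exact_mod_cast this
    nlinarith
  have hunion : ν (⋃ k ∈ Finset.range n, ball (a + ((2 * (k : ℝ) + 1) * η) • u) η) =
      ∑ k ∈ Finset.range n, ν (ball (a + ((2 * (k : ℝ) + 1) * η) • u) η) :=
    measure_biUnion_finset hdisj (fun _ _ => measurableSet_ball)
  have hsubT : (⋃ k ∈ Finset.range n, ball (a + ((2 * (k : ℝ) + 1) * η) • u) η) ⊆
      thickening η S := by
    intro z hz
    simp only [mem_iUnion, Finset.mem_range, exists_prop] at hz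
    obtain ⟨k, hk, hz⟩ := hz
    rw [mem_thickening_iff]
    refine ⟨a + ((2 * (k : ℝ) + 1) * η) • u, ?_, hz⟩
    rw [hS, mem_seg_iff hh]
    have hk0 : (0 : ℝ) ≤ k := Nat.cast_nonneg k
    have hkn : (k : ℝ) + 1 ≤ n := by exact_mod_cast hk
    exact ⟨(2 * (k : ℝ) + 1) * η, by positivity, by rw [← hnη]; nlinarith, rfl⟩
  have hlt : ν (thickening η S) < ENNReal.ofReal (h / 2) := by
    apply hev _ (mem_Ioi.2 hηpos)
    rw [Real.dist_eq, sub_zero, abs_of_pos hηpos]
    exact lt_of_lt_of_le hηmin (min_le_left _ _)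
  have hge : ENNReal.ofReal (h / 2) ≤ ν (thickening η S) := by
    calc ENNReal.ofReal (h / 2) = ENNReal.ofReal (n * η) := by congr 1; linarith
      _ = (n : ℝ≥0∞) * ENNReal.ofReal η := by
          rw [ENNReal.ofReal_mul hn0.le, ENNReal.ofReal_natCast]
      _ = ∑ _k ∈ Finset.range n, ENNReal.ofReal η := by
          rw [Finset.sum_const, Finset.card_range, nsmul_eq_mul]
      _ ≤ ∑ k ∈ Finset.range n, ν (ball (a + ((2 * (k : ℝ) + 1) * η) • u) η) :=
          Finset.sum_le_sum hball
      _ = ν (⋃ k ∈ Finset.range n, ball (a + ((2 * (k : ℝ) + 1) * η) • u) η) := hunion.symm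
      _ ≤ ν (thickening η S) := measure_mono hsubT
  exact absurd hge (not_le.2 hlt)

end Pool.Agent.Helper5.Steiner
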