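import Pool.Agent.Helper5.Steiner.Minimal

/-!
Counting branching points of a minimal continuum inside an open set.
-/

open MeasureTheory MeasureTheory.Measure Set Metric Topology
open scoped ENNReal NNReal

set_option linter.unusedSectionVars false

namespace Pool.Agent.Helper5.Steiner

variable {E : Type*} [NormedAddCommGroup E] [InnerProductSpace ℝ E] [MeasurableSpace E]
  [BorelSpace E]

/-- A clean ball on a leg at `p`. -/
structure Arm (X : Set E) (p : E) (ε : ℝ) (c u : E) (s : ℝ) : Prop where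
  clean : Clean X c u s
  leg : segment ℝ p (c - s • u) ⊆ X
  legball : Disjoint (segment ℝ p (c - s • u)) (ball c s)
  ball_sub : closedBall c s ⊆ closedBall p ε
  leg_sub : segment ℝ p (c - s • u) ⊆ closedBall p ε
  p_not : p ∉ closedBall c s

theorem Arm.p_mem {X : Set E} {p : E} {ε : ℝ} {c u : E} {s : ℝ} (h : Arm X p ε c u s)
    {P Q : Set E} (hs : Split X c u s P Q) : p ∈ P := by
  have hsub : segment ℝ p (c - s • u) ⊆ P := by
    apply sub_of_meets hs.closedP hs.closedQ hs.disj (convex_segment _ _).isPreconnected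
    · rw [← hs.union]
      intro x hx
      exact ⟨h.leg hx, fun hb => h.legball.le_bot ⟨hx, hb⟩⟩
    · exact ⟨_, right_mem_segment ℝ _ _, hs.left⟩
  exact hsub (left_mem_segment ℝ _ _)

/-- Outer sides of arms that do not contain the other centre are disjoint. -/
theorem outer_disjoint {X : Set E} (hX : IsCompact X) (hc : IsPreconnected X)
    {p q : E} {ε ε' : ℝ} {c u c' u' : E} {s s' : ℝ}
    (h : Arm X p ε c u s) (h' : Arm X q ε' c' u' s')
    {P Q P' Q' : Set E} (hs : Split X c u s P Q) (hs' : Split X c' u' s' P' Q')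
    (hbb : Disjoint (closedBall c s) (closedBall c' s'))
    (hlb : Disjoint (segment ℝ p (c - s • u)) (closedBall c' s'))
    (hlb' : Disjoint (segment ℝ q (c' - s' • u')) (closedBall c s))
    (hq : q ∉ Q) (hp : p ∉ Q') : Disjoint Q Q' := by
  -- step 1
  have hZ' : IsPreconnected (segment ℝ q (c' - s' • u') ∪ (X ∩ closedBall c' s')) :=
    IsPreconnected.union (c' - s' • u') (right_mem_segment ℝ _ _)
      ⟨h'.clean.mem_left, sphere_subset_closedBall h'.clean.left_sphere⟩
      (convex_segment _ _).isPreconnected (h'.clean.inner_conn hX hc)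
  have hZ's : segment ℝ q (c' - s' • u') ∪ (X ∩ closedBall c' s') ⊆ P ∪ Q := by
    rw [← hs.union]
    rintro x (hx | hx)
    · exact ⟨h'.leg hx, fun hb => hlb'.le_bot ⟨hx, ball_subset_closedBall hb⟩⟩
    · exact ⟨hx.1, fun hb => hbb.le_bot ⟨ball_subset_closedBall hb, hx.2⟩⟩
  have hqm : q ∈ segment ℝ q (c' - s' • u') ∪ (X ∩ closedBall c' s') :=
    Or.inl (left_mem_segment ℝ _ _)
  have hqP : q ∈ P := (hZ's hqm).resolve_right hq
  have h1 := sub_of_meets hs.closedP hs.closedQ hs.disj hZ' hZ's ⟨q, hqm, hqP⟩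
  -- step 3
  have hZ0 : IsPreconnected (segment ℝ p (c - s • u) ∪ (X ∩ closedBall c s)) :=
    IsPreconnected.union (c - s • u) (right_mem_segment ℝ _ _)
      ⟨h.clean.mem_left, sphere_subset_closedBall h.clean.left_sphere⟩
      (convex_segment _ _).isPreconnected (h.clean.inner_conn hX hc)
  have hZ : IsPreconnected ((segment ℝ p (c - s • u) ∪ (X ∩ closedBall c s)) ∪ Q) :=
    IsPreconnected.union (c + s • u)
      (Or.inr ⟨h.clean.mem_right, sphere_subset_closedBall h.clean.right_sphere⟩)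
      hs.right hZ0 hs.connQ.isPreconnected
  have hZs : (segment ℝ p (c - s • u) ∪ (X ∩ closedBall c s)) ∪ Q ⊆ P' ∪ Q' := by
    rw [← hs'.union]
    rintro x ((hx | hx) | hx)
    · exact ⟨h.leg hx, fun hb => hlb.le_bot ⟨hx, ball_subset_closedBall hb⟩⟩
    · exact ⟨hx.1, fun hb => hbb.le_bot ⟨hx.2, ball_subset_closedBall hb⟩⟩
    · refine ⟨hs.subQ hx, fun hb => ?_⟩
      have hxP : x ∈ P := h1 (Or.inr ⟨hs.subQ hx, ball_subset_closedBall hb⟩)
      exact hs.disj.le_bot ⟨hxP, hx⟩
  have hpm : p ∈ (segment ℝ p (c - s • u) ∪ (X ∩ closedBall c s)) ∪ Q :=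
    Or.inl (Or.inl (left_mem_segment ℝ _ _))
  have hpP' : p ∈ P' := (hZs hpm).resolve_right hp
  have h2 := sub_of_meets hs'.closedP hs'.closedQ hs'.disj hZ hZs ⟨p, hpm, hpP'⟩
  rw [Set.disjoint_left]
  intro x hx hx'
  exact hs'.disj.le_bot ⟨h2 (Or.inr hx), hx'⟩

theorem legs_disjoint {p u v : E} (hu : ‖u‖ = 1) (hv : ‖v‖ = 1) (huv : u ≠ v) {ε : ℝ}
    (hε : 0 < ε) :
    Disjoint (segment ℝ (p + (ε / 2) • u) (p + (ε / 2) • u + (ε / 2) • u))
      (segment ℝ p (p + ε • v)) := by
  rw [Set.disjoint_left]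
  intro x hx hx'
  rw [mem_seg_iff (by positivity)] at hx
  rw [mem_seg_iff hε] at hx'
  obtain ⟨τ, h0, h1, rfl⟩ := hx
  obtain ⟨σ, h2, h3, h4⟩ := hx'
  have h5 : (ε / 2 + τ) • u = σ • v := by
    have : p + (ε / 2) • u + τ • u = p + (ε / 2 + τ) • u := by rw [add_smul]; abel
    rw [this] at h4
    exact add_left_cancel h4
  have h6 : ε / 2 + τ = σ := by
    have := congrArg norm h5
    rw [norm_smul, norm_smul, hu, hv, mul_one, mul_one, Real.norm_eq_abs, Real.norm_eq_abs,
      abs_of_nonneg (by positivity), abs_of_nonneg h2] at this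
    exact this
  rw [h6] at h5
  have h7 : σ ≠ 0 := by rw [← h6]; positivity
  exact huv (smul_right_injective E h7 h5)

/-- Three arms at a branching point. -/
theorem exists_arms {X : Set E} (hX : IsCompact X) (hfin : μH[1] X ≠ ∞) {p : E} {ε : ℝ}
    (hε : 0 < ε) {v : Fin 3 → E} (hinj : Function.Injective v) (hv : ∀ i, ‖v i‖ = 1)
    (hleg : ∀ i, segment ℝ p (p + ε • v i) ⊆ X) :
    ∃ (c : Fin 3 → E) (s : Fin 3 → ℝ), (∀ i, Arm X p ε (c i) (v i) (s i)) ∧
      (∀ i k, i ≠ k → Disjoint (closedBall (c i) (s i)) (closedBall (c k) (s k)) ∧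
        Disjoint (segment ℝ p (c k - s k • v k)) (closedBall (c i) (s i))) := by
  -- separation of the legs
  have hsep : ∀ i k, ∃ δ : ℝ, 0 < δ ∧ (i ≠ k →
      Disjoint (cthickening δ (segment ℝ (p + (ε / 2) • v i) (p + (ε / 2) • v i + (ε / 2) • v i)))
        (cthickening δ (segment ℝ p (p + ε • v k)))) := by
    intro i k
    by_cases hik : i = k
    · exact ⟨1, one_pos, fun h => (h hik).elim⟩
    · have hcomp : ∀ a b : E, IsCompact (segment ℝ a b) := by
        intro a b
        rw [segment_eq_image']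
        exact isCompact_Icc.image (by fun_prop)
      obtain ⟨δ, hδ, h⟩ := (legs_disjoint (p := p) (hv i) (hv k) (fun h => hik (hinj h)) hε
        ).exists_cthickenings (hcomp _ _) (hcomp _ _).isClosed
      exact ⟨δ, hδ, fun _ => h⟩
  choose δ hδ hδd using hsep
  obtain ⟨κ, hκ, hκδ⟩ : ∃ κ : ℝ, 0 < κ ∧ ∀ i k, κ ≤ δ i k := by
    obtain ⟨ik, hik⟩ := Finite.exists_min (fun ik : Fin 3 × Fin 3 => δ ik.1 ik.2)
    exact ⟨δ ik.1 ik.2, hδ _ _, fun i k => hik (i, k)⟩
  have hsegsub : ∀ i, segment ℝ (p + (ε / 2) • v i) (p + (ε / 2) • v i + (ε / 2) • v i) ⊆ X := by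
    intro i
    refine subset_trans ?_ (hleg i)
    apply (convex_segment _ _).segment_subset
    · rw [mem_seg_iff hε]; exact ⟨ε / 2, by positivity, by linarith, rfl⟩
    · rw [mem_seg_iff hε]; exact ⟨ε, by positivity, le_rfl, by module⟩
  have hcl : ∀ i, ∃ t s : ℝ, s < κ ∧ s < t ∧ t + s < ε / 2 ∧
      Clean X (p + (ε / 2) • v i + t • v i) (v i) s := fun i =>
    exists_clean hX hfin (by positivity) hκ (hv i) (hsegsub i)
  choose t s hsκ hst hts hclean using hcl
  have hspos : ∀ i, 0 < s i := fun i => (hclean i).pos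
  have hleftmem : ∀ i, p + (ε / 2) • v i + t i • v i - s i • v i ∈ segment ℝ p (p + ε • v i) := by
    intro i
    rw [mem_seg_iff hε]
    have := hspos i; have := hst i; have := hts i
    exact ⟨ε / 2 + t i - s i, by linarith, by linarith, by module⟩
  have hlegsub : ∀ i, segment ℝ p (p + (ε / 2) • v i + t i • v i - s i • v i) ⊆
      segment ℝ p (p + ε • v i) := fun i =>
    (convex_segment _ _).segment_subset (left_mem_segment ℝ _ _) (hleftmem i)
  have hball_thick : ∀ i, closedBall (p + (ε / 2) • v i + t i • v i) (s i) ⊆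
      cthickening κ (segment ℝ (p + (ε / 2) • v i) (p + (ε / 2) • v i + (ε / 2) • v i)) := by
    intro i x hx
    have hm : p + (ε / 2) • v i + t i • v i ∈
        segment ℝ (p + (ε / 2) • v i) (p + (ε / 2) • v i + (ε / 2) • v i) := by
      rw [mem_seg_iff (by positivity)]
      have := hspos i; have := hst i; have := hts i
      exact ⟨t i, by linarith, by linarith, rfl⟩
    apply closedBall_subset_cthickening hm κ
    exact closedBall_subset_closedBall (hsκ i).le hx
  have hball_thick' : ∀ i, closedBall (p + (ε / 2) • v i + t i • v i) (s i) ⊆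
      cthickening κ (segment ℝ p (p + ε • v i)) := by
    intro i x hx
    have hm : p + (ε / 2) • v i + t i • v i ∈ segment ℝ p (p + ε • v i) := by
      rw [mem_seg_iff hε]
      have := hspos i; have := hst i; have := hts i
      exact ⟨ε / 2 + t i, by linarith, by linarith, by module⟩
    apply closedBall_subset_cthickening hm κ
    exact closedBall_subset_closedBall (hsκ i).le hx
  refine ⟨fun i => p + (ε / 2) • v i + t i • v i, s, ?_, ?_⟩
  · intro i
    have h1 := hspos i
    have h2 := hst i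
    have h3 := hts i
    have hdist : dist (p + (ε / 2) • v i + t i • v i) p = ε / 2 + t i := by
      rw [dist_eq_norm]
      have : p + (ε / 2) • v i + t i • v i - p = (ε / 2 + t i) • v i := by module
      rw [this, norm_smul, hv i, mul_one, Real.norm_eq_abs, abs_of_nonneg (by linarith)]
    refine ⟨hclean i, (hlegsub i).trans (hleg i), ?_, ?_, ?_, ?_⟩
    · rw [Set.disjoint_left]
      intro x hx hxb
      have hx' : x ∈ segment ℝ p (p + (ε / 2 + t i - s i) • v i) := by
        have : p + (ε / 2 + t i - s i) • v i = p + (ε / 2) • v i + t i • v i - s i • v i := by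
          module
        rw [this]; exact hx
      rw [mem_seg_iff (by linarith)] at hx'
      obtain ⟨τ, h4, h5, rfl⟩ := hx'
      rw [mem_ball, dist_eq_norm] at hxb
      have : p + τ • v i - (p + (ε / 2) • v i + t i • v i) = (τ - (ε / 2 + t i)) • v i := by
        module
      rw [this, norm_smul, hv i, mul_one, Real.norm_eq_abs, abs_of_nonpos (by linarith)] at hxb
      linarith
    · apply closedBall_subset_closedBall'
      rw [hdist]; linarith
    · refine (hlegsub i).trans ((convex_closedBall p ε).segment_subset ?_ ?_)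
      · rw [mem_closedBall, dist_self]; exact hε.le
      · rw [mem_closedBall, dist_eq_norm]
        simp [norm_smul, hv i, abs_of_pos hε]
    · rw [mem_closedBall, dist_comm, hdist]; linarith
  · intro i k hik
    have hd := hδd i k hik
    have hd' : Disjoint
        (cthickening κ (segment ℝ (p + (ε / 2) • v i) (p + (ε / 2) • v i + (ε / 2) • v i)))
        (cthickening κ (segment ℝ p (p + ε • v k))) :=
      hd.mono (cthickening_mono (hκδ i k) _) (cthickening_mono (hκδ i k) _)
    refine ⟨hd'.mono (hball_thick i) (hball_thick' k), ?_⟩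
    refine (hd'.mono (hball_thick i) ((hlegsub k).trans (self_subset_cthickening _))).symm

/-- Restriction of a branching point to the left side. -/
theorem IsBranch.left {T X : Set E} {f : E} (hf : IsBranch T X f) {c u : E} {s : ℝ}
    {P Q : Set E} (hs : Split X c u s P Q) (hc : Clean X c u s) (hfc : f ∉ closedBall c s)
    (hfP : f ∈ P) : IsBranch (insert (c - s • u) (T ∩ P)) P f := by
  obtain ⟨_, hfT, v, hinj, hv, ε, hε, hleg⟩ := hf
  refine ⟨hfP, ?_, v, hinj, hv, ?_⟩
  · rintro (h1 | h1)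
    · apply hfc
      rw [h1]
      exact sphere_subset_closedBall hc.left_sphere
    · exact hfT h1.1
  · obtain ⟨r, hr, hrs⟩ := Metric.isOpen_iff.1 (isClosed_closedBall (x := c) (ε := s)).isOpen_compl
      f hfc
    refine ⟨min ε (r / 2), lt_min hε (by positivity), fun i => ?_⟩
    have h0 : 0 < min ε (r / 2) := lt_min hε (by positivity)
    have hsubX : segment ℝ f (f + min ε (r / 2) • v i) ⊆ X := by
      refine subset_trans ?_ (hleg i)
      apply (convex_segment _ _).segment_subset (left_mem_segment ℝ _ _)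
      rw [mem_seg_iff hε]
      exact ⟨min ε (r / 2), h0.le, min_le_left _ _, rfl⟩
    have hsubr : segment ℝ f (f + min ε (r / 2) • v i) ⊆ ball f r := by
      apply (convex_ball f r).segment_subset (mem_ball_self hr)
      rw [mem_ball, dist_eq_norm]
      simp only [add_sub_cancel_left, norm_smul, hv i, mul_one, Real.norm_eq_abs, abs_of_pos h0]
      exact lt_of_le_of_lt (min_le_right _ _) (by linarith)
    apply sub_of_meets hs.closedP hs.closedQ hs.disj (convex_segment _ _).isPreconnected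
    · rw [← hs.union]
      intro x hx
      exact ⟨hsubX hx, fun hb => hrs (hsubr hx) (ball_subset_closedBall hb)⟩
    · exact ⟨f, left_mem_segment ℝ _ _, hfP⟩

theorem IsBranch.right {T X : Set E} {f : E} (hf : IsBranch T X f) {c u : E} {s : ℝ}
    {P Q : Set E} (hs : Split X c u s P Q) (hc : Clean X c u s) (hfc : f ∉ closedBall c s)
    (hfQ : f ∈ Q) : IsBranch (insert (c + s • u) (T ∩ Q)) Q f := by
  have := hf.left hs.swap hc.swap hfc hfQ
  rwa [smul_neg, sub_neg_eq_add] at this

theorem meets_frontier {U Q : Set E} (hU : IsOpen U) (hQ : IsPreconnected Q) {a t : E}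
    (ha : a ∈ Q) (haU : a ∈ U) (ht : t ∈ Q) (htU : t ∉ U) : (Q ∩ frontier U).Nonempty := by
  by_contra hn
  have hfr : frontier U = closure U \ U := hU.frontier_eq
  have h := hQ U (closure U)ᶜ hU isClosed_closure.isOpen_compl (by
    intro x hx
    by_cases hxU : x ∈ U
    · exact Or.inl hxU
    · right
      intro hxc
      exact hn ⟨x, hx, by rw [hfr]; exact ⟨hxc, hxU⟩⟩) ⟨a, ha, haU⟩
    ⟨t, ht, fun hc => hn ⟨t, ht, by rw [hfr]; exact ⟨hc, htU⟩⟩⟩
  obtain ⟨x, _, hxU, hxc⟩ := h
  exact hxc (subset_closure hxU)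

/-- Simultaneous small radius for finitely many branching points. -/
theorem exists_radius {T X U : Set E} (hU : IsOpen U) (hT : T.Finite) (F : Finset E)
    (hF : ∀ p ∈ F, p ∈ U ∧ IsBranch T X p) :
    ∃ ε : ℝ, 0 < ε ∧ (∀ p ∈ F, closedBall p ε ⊆ U) ∧ (∀ p ∈ F, Disjoint T (closedBall p ε)) ∧
      (∀ p ∈ F, ∀ q ∈ F, p ≠ q → Disjoint (closedBall p ε) (closedBall q ε)) ∧
      (∀ p ∈ F, ∃ v : Fin 3 → E, Function.Injective v ∧ (∀ i, ‖v i‖ = 1) ∧
        ∀ i, segment ℝ p (p + ε • v i) ⊆ X) := by
  -- each requirement holds for all small ε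
  have h1 : ∀ p ∈ F, ∀ᶠ ε in 𝓝[>] (0 : ℝ), closedBall p ε ⊆ U := by
    intro p hp
    obtain ⟨r, hr, hrU⟩ := Metric.isOpen_iff.1 hU p (hF p hp).1
    filter_upwards [Ioo_mem_nhdsGT hr] with ε hε
    exact (closedBall_subset_ball hε.2).trans hrU
  have h2 : ∀ p ∈ F, ∀ᶠ ε in 𝓝[>] (0 : ℝ), Disjoint T (closedBall p ε) := by
    intro p hp
    obtain ⟨r, hr, hrT⟩ := Metric.isOpen_iff.1 hT.isClosed.isOpen_compl p (hF p hp).2.2.1
    filter_upwards [Ioo_mem_nhdsGT hr] with ε hε
    rw [Set.disjoint_left]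
    intro t ht htb
    exact hrT (closedBall_subset_ball hε.2 htb) ht
  have h3 : ∀ p ∈ F, ∀ q ∈ F, ∀ᶠ ε in 𝓝[>] (0 : ℝ), p ≠ q →
      Disjoint (closedBall p ε) (closedBall q ε) := by
    intro p _ q _
    by_cases hpq : p = q
    · exact Filter.Eventually.of_forall fun _ h => (h hpq).elim
    · have hd : 0 < dist p q / 2 := by have := dist_pos.2 hpq; linarith
      filter_upwards [Ioo_mem_nhdsGT hd] with ε hε _
      apply closedBall_disjoint_closedBall
      linarith [hε.2]
  have h4 : ∀ p ∈ F, ∀ᶠ ε in 𝓝[>] (0 : ℝ), ∃ v : Fin 3 → E, Function.Injective v ∧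
      (∀ i, ‖v i‖ = 1) ∧ ∀ i, segment ℝ p (p + ε • v i) ⊆ X := by
    intro p hp
    obtain ⟨_, _, v, hinj, hv, δ, hδ, hleg⟩ := (hF p hp).2
    filter_upwards [Ioo_mem_nhdsGT hδ] with ε hε
    refine ⟨v, hinj, hv, fun i => subset_trans ?_ (hleg i)⟩
    apply (convex_segment _ _).segment_subset (left_mem_segment ℝ _ _)
    rw [mem_seg_iff hδ]
    exact ⟨ε, hε.1.le, hε.2.le, rfl⟩
  have e1 := (Filter.eventually_all_finset F).2 h1
  have e2 := (Filter.eventually_all_finset F).2 h2
  have e3 := (Filter.eventually_all_finset F).2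
    (fun p hp => (Filter.eventually_all_finset F).2 (h3 p hp))
  have e4 := (Filter.eventually_all_finset F).2 h4
  obtain ⟨ε, ⟨⟨⟨⟨hε, a1⟩, a2⟩, a3⟩, a4⟩⟩ :=
    ((((eventually_mem_nhdsWithin (a := (0 : ℝ)) (s := Ioi 0)).and e1).and e2).and e3).and e4
      |>.exists
  exact ⟨ε, hε, a1, a2, a3, a4⟩

/-- **Counting lemma.** Let `X` be minimal for the finite set `T` and let `U` be open. If `U`
contains `N ≥ 1` branching points, then `N + 2` is at most the number of points of `X` on the
boundary of `U` plus the number of terminals in `U`. -/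
theorem count (U : Set E) (hU : IsOpen U) : ∀ (N : ℕ) (T X : Set E) (F : Finset E), 1 ≤ N →
    F.card = N → IsSteiner T X → μH[1] X ≠ ∞ → T.Finite →
    (∀ p ∈ F, p ∈ U ∧ IsBranch T X p) →
    (N : ℕ∞) + 2 ≤ (X ∩ frontier U).encard + (T ∩ U).encard := by
  classical
  intro N
  induction N using Nat.strong_induction_on with
  | _ N ih =>
  intro T X F hN hcard hX hfin hTf hF
  obtain ⟨ε, hε, hεU, hεT, hεd, hlegs⟩ := exists_radius hU hTf F hF
  have harm : ∀ p : F, ∃ (v : Fin 3 → E) (c : Fin 3 → E) (s : Fin 3 → ℝ),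
      (∀ i, Arm X p ε (c i) (v i) (s i)) ∧
      (∀ i k, i ≠ k → Disjoint (closedBall (c i) (s i)) (closedBall (c k) (s k)) ∧
        Disjoint (segment ℝ (p : E) (c k - s k • v k)) (closedBall (c i) (s i))) := by
    rintro ⟨p, hp⟩
    obtain ⟨v, hinj, hv, hleg⟩ := hlegs p hp
    obtain ⟨c, s, h1, h2⟩ := exists_arms hX.compact hfin hε hinj hv hleg
    exact ⟨v, c, s, h1, h2⟩
  choose v c s harm hdis using harm
  have hTd : ∀ (p : F) (i : Fin 3), Disjoint T (closedBall (c p i) (s p i)) := fun p i =>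
    (hεT p p.2).mono_right (harm p i).ball_sub
  have hsplit : ∀ (p : F) (i : Fin 3), ∃ P Q : Set E, Split X (c p i) (v p i) (s p i) P Q :=
    fun p i => hX.exists_split hfin (harm p i).clean (hTd p i)
  choose P Q hs using hsplit
  have hFnot : ∀ (p : F) (i : Fin 3) (f : E), f ∈ F → f ∉ closedBall (c p i) (s p i) := by
    intro p i f hf
    by_cases hfp : f = p
    · rw [hfp]; exact (harm p i).p_not
    · intro hfb
      have := hεd f hf p p.2 hfp
      exact this.le_bot ⟨mem_closedBall_self hε.le, (harm p i).ball_sub hfb⟩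
  by_cases hA : ∃ (p : F) (i : Fin 3) (q : F), (q : E) ∈ Q p i
  · -- split at this arm
    obtain ⟨p, i, q, hq⟩ := hA
    have hsp := hs p i
    have hcl := (harm p i).clean
    set F1 := F.filter (· ∈ P p i) with hF1
    set F2 := F.filter (· ∈ Q p i) with hF2
    have hFU : ∀ f ∈ F, f ∈ P p i ∨ f ∈ Q p i := by
      intro f hf
      have : f ∈ X \ ball (c p i) (s p i) :=
        ⟨(hF f hf).2.1, fun hb => hFnot p i f hf (ball_subset_closedBall hb)⟩
      rw [hsp.union] at this
      exact this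
    have hFeq : F1 ∪ F2 = F := by
      ext f
      simp only [hF1, hF2, Finset.mem_union, Finset.mem_filter]
      constructor
      · rintro (h | h) <;> exact h.1
      · intro h
        rcases hFU f h with h1 | h1
        · exact Or.inl ⟨h, h1⟩
        · exact Or.inr ⟨h, h1⟩
    have hFd : Disjoint F1 F2 := by
      rw [Finset.disjoint_left]
      intro f h1 h2
      rw [hF1, Finset.mem_filter] at h1
      rw [hF2, Finset.mem_filter] at h2
      exact hsp.disj.le_bot ⟨h1.2, h2.2⟩
    have hcardsum : F1.card + F2.card = N := by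
      rw [← Finset.card_union_of_disjoint hFd, hFeq, hcard]
    have hp1 : (p : E) ∈ F1 := by
      rw [hF1, Finset.mem_filter]; exact ⟨p.2, (harm p i).p_mem hsp⟩
    have hq2 : (q : E) ∈ F2 := by
      rw [hF2, Finset.mem_filter]; exact ⟨q.2, hq⟩
    have hc1 : 1 ≤ F1.card := Finset.card_pos.2 ⟨_, hp1⟩
    have hc2 : 1 ≤ F2.card := Finset.card_pos.2 ⟨_, hq2⟩
    have hPfin : μH[1] (P p i) ≠ ∞ := ne_top_of_le_ne_top hfin (measure_mono hsp.subP)
    have hQfin : μH[1] (Q p i) ≠ ∞ := ne_top_of_le_ne_top hfin (measure_mono hsp.subQ)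
    have i1 := ih F1.card (by omega) (insert (c p i - s p i • v p i) (T ∩ P p i)) (P p i) F1 hc1 rfl
      (hX.left hfin hcl (hTd p i) hsp) hPfin ((hTf.inter_of_left _).insert _) (by
        intro f hf
        rw [hF1, Finset.mem_filter] at hf
        exact ⟨(hF f hf.1).1, (hF f hf.1).2.left hsp hcl (hFnot p i f hf.1) hf.2⟩)
    have i2 := ih F2.card (by omega) (insert (c p i + s p i • v p i) (T ∩ Q p i)) (Q p i) F2 hc2 rfl
      (hX.right hfin hcl (hTd p i) hsp) hQfin ((hTf.inter_of_left _).insert _) (by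
        intro f hf
        rw [hF2, Finset.mem_filter] at hf
        exact ⟨(hF f hf.1).1, (hF f hf.1).2.right hsp hcl (hFnot p i f hf.1) hf.2⟩)
    have e1 : ((P p i) ∩ frontier U).encard + ((Q p i) ∩ frontier U).encard ≤
        (X ∩ frontier U).encard := by
      rw [← encard_union_eq (hsp.disj.mono inter_subset_left inter_subset_left)]
      apply encard_le_encard
      rintro x (hx | hx)
      · exact ⟨hsp.subP hx.1, hx.2⟩
      · exact ⟨hsp.subQ hx.1, hx.2⟩
    have e2 : ((T ∩ P p i) ∩ U).encard + ((T ∩ Q p i) ∩ U).encard ≤ (T ∩ U).encard := by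
      rw [← encard_union_eq (hsp.disj.mono (inter_subset_left.trans inter_subset_right)
        (inter_subset_left.trans inter_subset_right))]
      apply encard_le_encard
      rintro x (hx | hx) <;> exact ⟨hx.1.1, hx.2⟩
    have e3 : (insert (c p i - s p i • v p i) (T ∩ P p i) ∩ U).encard ≤
        ((T ∩ P p i) ∩ U).encard + 1 := by
      refine (encard_le_encard ?_).trans (encard_insert_le _ (c p i - s p i • v p i))
      rintro x ⟨rfl | hx, hxU⟩
      · exact Or.inl rfl
      · exact Or.inr ⟨hx, hxU⟩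
    have e4 : (insert (c p i + s p i • v p i) (T ∩ Q p i) ∩ U).encard ≤
        ((T ∩ Q p i) ∩ U).encard + 1 := by
      refine (encard_le_encard ?_).trans (encard_insert_le _ (c p i + s p i • v p i))
      rintro x ⟨rfl | hx, hxU⟩
      · exact Or.inl rfl
      · exact Or.inr ⟨hx, hxU⟩
    have htot : (N : ℕ∞) + 4 ≤ (X ∩ frontier U).encard + (T ∩ U).encard + 2 := by
      calc (N : ℕ∞) + 4 = ((F1.card : ℕ∞) + 2) + ((F2.card : ℕ∞) + 2) := by
            rw [← hcardsum]; push_cast; ring
        _ ≤ (((P p i) ∩ frontier U).encard + (((T ∩ P p i) ∩ U).encard + 1)) +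
            (((Q p i) ∩ frontier U).encard + (((T ∩ Q p i) ∩ U).encard + 1)) :=
            add_le_add (i1.trans (add_le_add le_rfl e3)) (i2.trans (add_le_add le_rfl e4))
        _ = (((P p i) ∩ frontier U).encard + ((Q p i) ∩ frontier U).encard) +
            (((T ∩ P p i) ∩ U).encard + ((T ∩ Q p i) ∩ U).encard) + 2 := by ring
        _ ≤ _ := by gcongr
    have h4 : (N : ℕ∞) + 4 = ((N : ℕ∞) + 2) + 2 := by ring
    rw [h4] at htot
    exact (ENat.add_le_add_iff_right (by decide)).1 htot
  · push Not at hA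
    -- all outer sides are pairwise disjoint
    have hdisj : ∀ a b : F × Fin 3, a ≠ b → Disjoint (Q a.1 a.2) (Q b.1 b.2) := by
      rintro ⟨p, i⟩ ⟨q, j⟩ hab
      have hq := hA p i q
      have hp := hA q j p
      by_cases hpq : p = q
      · subst hpq
        have hij : i ≠ j := fun h => hab (by rw [h])
        exact outer_disjoint hX.compact hX.conn.isPreconnected (harm p i) (harm p j) (hs p i)
          (hs p j) (hdis p i j hij).1 (hdis p j i hij.symm).2 (hdis p i j hij).2 hq hp
      · have hd := hεd p p.2 q q.2 (fun h => hpq (Subtype.ext h))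
        exact outer_disjoint hX.compact hX.conn.isPreconnected (harm p i) (harm q j) (hs p i)
          (hs q j) (hd.mono (harm p i).ball_sub (harm q j).ball_sub)
          (hd.mono (harm p i).leg_sub (harm q j).ball_sub)
          (hd.symm.mono (harm q j).leg_sub (harm p i).ball_sub) hq hp
    have hw : ∀ a : F × Fin 3, ∃ w, w ∈ Q a.1 a.2 ∧ w ∈ (X ∩ frontier U) ∪ (T ∩ U) := by
      rintro ⟨p, i⟩
      obtain ⟨t, htT, htQ⟩ := hX.terminal_right hfin (harm p i).clean (hTd p i) (hs p i)
      by_cases htU : t ∈ U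
      · exact ⟨t, htQ, Or.inr ⟨htT, htU⟩⟩
      · have hrU : c p i + s p i • v p i ∈ U :=
          hεU p p.2 ((harm p i).ball_sub (sphere_subset_closedBall (harm p i).clean.right_sphere))
        obtain ⟨w, hwQ, hwf⟩ := meets_frontier hU (hs p i).connQ.isPreconnected (hs p i).right
          hrU htQ htU
        exact ⟨w, hwQ, Or.inl ⟨(hs p i).subQ hwQ, hwf⟩⟩
    choose w hwQ hwW using hw
    have hinj : InjOn w univ := by
      intro a _ b _ hab
      by_contra hne
      exact (hdisj a b hne).le_bot ⟨hwQ a, hab ▸ hwQ b⟩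
    have h1 : (univ : Set (F × Fin 3)).encard ≤ ((X ∩ frontier U) ∪ (T ∩ U)).encard :=
      encard_le_encard_of_injOn (fun a _ => hwW a) hinj
    have h2 : (univ : Set (F × Fin 3)).encard = ((3 * N : ℕ) : ℕ∞) := by
      rw [encard_univ, ENat.card_eq_coe_fintype_card]
      simp [hcard, mul_comm]
    rw [h2] at h1
    calc (N : ℕ∞) + 2 = ((N + 2 : ℕ) : ℕ∞) := by push_cast; rfl
      _ ≤ ((3 * N : ℕ) : ℕ∞) := by exact_mod_cast (by omega : N + 2 ≤ 3 * N)
      _ ≤ _ := h1
      _ ≤ _ := encard_union_le _ _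

end Pool.Agent.Helper5.Steiner
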