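import Pool.Agent.Helper5.Steiner.Blowup

/-!
Assembly: branching points of Steiner trees inside a concentric ball.
-/

open MeasureTheory MeasureTheory.Measure Set Metric Topology
open scoped ENNReal NNReal

set_option linter.unusedSectionVars false

namespace Pool.Agent.Helper5.Steiner

variable {E : Type*} [NormedAddCommGroup E] [InnerProductSpace ℝ E] [MeasurableSpace E]
  [BorelSpace E]

/-- Steiner trees of finite sets have finite length. -/
theorem IsSteiner.fin {A X : Set E} (hA : A.Finite) (hX : IsSteiner A X) : μH[1] X ≠ ∞ := by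
  set K : Set E := ⋃ a ∈ insert (0 : E) A, segment ℝ 0 a with hK
  have hfin : (insert (0 : E) A).Finite := hA.insert 0
  have hcomp : IsCompact K := by
    apply hfin.isCompact_biUnion
    intro a _
    rw [segment_eq_image']
    exact isCompact_Icc.image (by fun_prop)
  have hconn : IsConnected K := by
    refine ⟨⟨0, ?_⟩, ?_⟩
    · rw [hK]; simp only [mem_iUnion]
      exact ⟨0, mem_insert _ _, left_mem_segment ℝ _ _⟩
    · rw [hK]
      have : (⋃ a ∈ insert (0 : E) A, segment ℝ (0 : E) a) =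
          ⋃₀ ((fun a => segment ℝ (0 : E) a) '' insert (0 : E) A) := by
        rw [sUnion_image]
      rw [this]
      apply isPreconnected_sUnion 0
      · rintro _ ⟨a, _, rfl⟩; exact left_mem_segment ℝ _ _
      · rintro _ ⟨a, _, rfl⟩; exact (convex_segment _ _).isPreconnected
  have hsub : A ⊆ K := by
    intro a ha
    rw [hK]; simp only [mem_iUnion]
    exact ⟨a, mem_insert_of_mem _ ha, right_mem_segment ℝ _ _⟩
  refine ne_top_of_le_ne_top ?_ (hX.min K hcomp hconn hsub)
  rw [hK]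
  apply ne_of_lt
  refine lt_of_le_of_lt (measure_biUnion_le _ hfin.countable _) ?_
  have : Finite ↑(insert (0 : E) A) := hfin
  have : Fintype ↑(insert (0 : E) A) := Fintype.ofFinite _
  rw [tsum_fintype]
  apply ENNReal.sum_lt_top.2
  intro a _
  rw [hausdorffMeasure_segment]
  exact edist_lt_top _ _

/-- Number of branching points in the concentric ball of radius `r`, versus crossing points. -/
theorem crossing {A X : Set E} (hX : IsSteiner A X) (hAf : A.Finite) (hfin : μH[1] X ≠ ∞)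
    (hA : Disjoint A (ball 0 1)) {r : ℝ} (hr : 0 < r) (F : Finset E) (hF1 : 1 ≤ F.card)
    (hF : ∀ p ∈ F, p ∈ ball 0 r ∧ IsBranch A X p) {s : ℝ} (hrs : r ≤ s) (hs : s ≤ 1) :
    ((F.card + 2 : ℕ) : ℕ∞) ≤ (X ∩ sphere 0 s).encard := by
  have h := count (ball (0 : E) s) isOpen_ball F.card A X F hF1 rfl hX hfin hAf
    (fun p hp => ⟨ball_subset_ball hrs (hF p hp).1, (hF p hp).2⟩)
  have h0 : A ∩ ball 0 s = ∅ :=
    Set.disjoint_iff_inter_eq_empty.1 (hA.mono_right (ball_subset_ball hs))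
  rw [frontier_ball 0 (by linarith : s ≠ 0), h0, encard_empty, add_zero] at h
  push_cast
  exact h

/-- Bound for finite sets of branching points, all dimensions. -/
theorem card_le [FiniteDimensional ℝ E] {d : ℕ} (hd : 2 ≤ d)
    (hfr : Module.finrank ℝ E = d) {A X : Set E} (hX : IsSteiner A X) (hAf : A.Finite)
    (hA : Disjoint A (ball 0 1)) (F : Finset E)
    (hF : ∀ p ∈ F, p ∈ ball 0 (1 / 2 : ℝ) ∧ IsBranch A X p) :
    F.card ≤ 32 * (64 * d) ^ d := by
  rcases Nat.eq_zero_or_pos F.card with h0 | h1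
  · rw [h0]; exact Nat.zero_le _
  have hfin := hX.fin hAf
  have hco := coarea hX.compact.isClosed (by norm_num : (1 / 2 : ℝ) < 3 / 4) (F.card + 2)
    (fun ρ hρ => crossing hX hAf hfin hA (by norm_num) F h1 hF hρ.1.le (by linarith [hρ.2]))
  have hle : μH[1] (X ∩ {x : E | (1 / 2 : ℝ) < ‖x‖ ∧ ‖x‖ < 3 / 4}) ≤
      μH[1] (X ∩ ball 0 (3 / 4)) := by
    apply measure_mono
    rintro x ⟨hx, hx'⟩
    exact ⟨hx, by rw [mem_ball_zero_iff]; exact hx'.2⟩
  have hlen := hX.length_le hd hfr hfin hA (by norm_num : (0 : ℝ) ≤ 3 / 4) (by norm_num)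
  have h2 := hco.trans (hle.trans hlen)
  rw [← ENNReal.ofReal_natCast, ← ENNReal.ofReal_mul (Nat.cast_nonneg _),
    ENNReal.ofReal_le_ofReal_iff (by positivity)] at h2
  have h3 : (16 * (d : ℝ) / (1 - 3 / 4)) = 64 * d := by ring
  rw [h3] at h2
  have h4 : ((F.card + 2 : ℕ) : ℝ) ≤ 32 * (64 * d) ^ d := by linarith
  have h5 : ((F.card : ℕ) : ℝ) ≤ ((32 * (64 * d) ^ d : ℕ) : ℝ) := by
    push_cast at h4 ⊢
    linarith
  exact_mod_cast h5

/-- The circle of radius `ρ`. -/
theorem circle_aux {ρ : ℝ} (hρ : 0 ≤ ρ) :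
    IsCompact (sphere (0 : EuclideanSpace ℝ (Fin 2)) ρ) ∧
    IsConnected (sphere (0 : EuclideanSpace ℝ (Fin 2)) ρ) ∧
    μH[1] (sphere (0 : EuclideanSpace ℝ (Fin 2)) ρ) ≤ ENNReal.ofReal (2 * Real.pi * ρ) := by
  set f : ℝ → EuclideanSpace ℝ (Fin 2) := fun θ => !₂[ρ * Real.cos θ, ρ * Real.sin θ] with hf
  have hlip : LipschitzWith (Real.toNNReal ρ) f := by
    apply LipschitzWith.of_dist_le_mul
    intro a b
    rw [Real.coe_toNNReal ρ hρ, EuclideanSpace.dist_eq]
    simp only [hf, Fin.sum_univ_two, Real.dist_eq]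
    apply Real.sqrt_le_iff.2
    refine ⟨by positivity, ?_⟩
    rw [sq_abs, sq_abs, mul_pow, sq_abs]
    simp only [Matrix.cons_val_zero, Matrix.cons_val_one]
    have h1 : (ρ * Real.cos a - ρ * Real.cos b) ^ 2 + (ρ * Real.sin a - ρ * Real.sin b) ^ 2 =
        ρ ^ 2 * (2 - 2 * Real.cos (a - b)) := by
      rw [Real.cos_sub]
      have ha := Real.sin_sq_add_cos_sq a
      have hb := Real.sin_sq_add_cos_sq b
      linear_combination ρ ^ 2 * ha + ρ ^ 2 * hb
    rw [h1]
    have h2 := Real.one_sub_sq_div_two_le_cos (x := a - b)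
    have h3 : 0 ≤ ρ ^ 2 := sq_nonneg _
    nlinarith
  have himg : f '' Icc (-Real.pi) Real.pi = sphere (0 : EuclideanSpace ℝ (Fin 2)) ρ := by
    ext v
    constructor
    · rintro ⟨θ, _, rfl⟩
      rw [mem_sphere_zero_iff_norm, EuclideanSpace.norm_eq]
      simp only [hf, Fin.sum_univ_two, Real.norm_eq_abs, sq_abs]
      simp only [Matrix.cons_val_zero, Matrix.cons_val_one]
      have h1 : (ρ * Real.cos θ) ^ 2 + (ρ * Real.sin θ) ^ 2 = ρ ^ 2 := by
        have := Real.sin_sq_add_cos_sq θ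
        linear_combination ρ ^ 2 * this
      rw [h1, Real.sqrt_sq hρ]
    · intro hv
      rw [mem_sphere_zero_iff_norm, EuclideanSpace.norm_eq] at hv
      simp only [Fin.sum_univ_two, Real.norm_eq_abs, sq_abs] at hv
      set z : ℂ := ⟨v 0, v 1⟩ with hz
      have hzn : ‖z‖ = ρ := by
        rw [Complex.norm_def, Complex.normSq_mk, ← hv]
        congr 1; ring
      refine ⟨z.arg, ⟨(Complex.neg_pi_lt_arg z).le, Complex.arg_le_pi z⟩, ?_⟩
      ext i
      fin_cases i
      · show ρ * Real.cos z.arg = v 0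
        rw [← hzn, Complex.norm_mul_cos_arg]
      · show ρ * Real.sin z.arg = v 1
        rw [← hzn, Complex.norm_mul_sin_arg]
  have hpi := Real.pi_pos
  refine ⟨isCompact_sphere _ _, ?_, ?_⟩
  · rw [← himg]
    exact (isConnected_Icc (by linarith)).image f hlip.continuous.continuousOn
  · rw [← himg]
    refine (hlip.hausdorffMeasure_image_le zero_le_one _).trans ?_
    rw [hausdorffMeasure_real, Real.volume_Icc, ENNReal.rpow_one]
    have h1 : ((Real.toNNReal ρ : ℝ≥0) : ℝ≥0∞) = ENNReal.ofReal ρ := rfl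
    rw [h1, ← ENNReal.ofReal_mul hρ]
    apply ENNReal.ofReal_le_ofReal
    linarith

/-- Bound for finite sets of branching points in the plane. -/
theorem card_le_plane {A X : Set (EuclideanSpace ℝ (Fin 2))} (hX : IsSteiner A X)
    (hAf : A.Finite) (hA : Disjoint A (ball 0 1)) (F : Finset (EuclideanSpace ℝ (Fin 2)))
    (hF : ∀ p ∈ F, p ∈ ball 0 (1 / 2 : ℝ) ∧ IsBranch A X p) : F.card ≤ 10 := by
  by_contra hcon
  rw [not_le] at hcon
  have hfin := hX.fin hAf
  have hco := coarea hX.compact.isClosed (by norm_num : (1 / 2 : ℝ) < 98 / 100) (F.card + 2)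
    (fun ρ hρ => crossing hX hAf hfin hA (by norm_num) F (by omega) hF hρ.1.le
      (by linarith [hρ.2]))
  have hle : μH[1] (X ∩ {x : EuclideanSpace ℝ (Fin 2) | (1 / 2 : ℝ) < ‖x‖ ∧ ‖x‖ < 98 / 100}) ≤
      μH[1] (X ∩ ball 0 (98 / 100)) := by
    apply measure_mono
    rintro x ⟨hx, hx'⟩
    exact ⟨hx, by rw [mem_ball_zero_iff]; exact hx'.2⟩
  obtain ⟨hc1, hc2, hc3⟩ := circle_aux (by norm_num : (0 : ℝ) ≤ 98 / 100)
  have hlen := hX.replace hfin (hA.mono_right (ball_subset_ball (by norm_num : (98 / 100 : ℝ) ≤ 1)))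
    hc1 hc2 inter_subset_right
  have h2 := hco.trans (hle.trans (hlen.trans hc3))
  rw [← ENNReal.ofReal_natCast, ← ENNReal.ofReal_mul (Nat.cast_nonneg _),
    ENNReal.ofReal_le_ofReal_iff (by have := Real.pi_pos; positivity)] at h2
  have h3 : (13 : ℝ) ≤ ((F.card + 2 : ℕ) : ℝ) := by exact_mod_cast (by omega : 13 ≤ F.card + 2)
  have h4 := Real.pi_lt_d2
  nlinarith

end Pool.Agent.Helper5.Steiner
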