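import Pool.Agent.Helper5.Steiner.CleanCut

/-!
Consequences of minimality at a clean ball.
-/

open MeasureTheory MeasureTheory.Measure Set Metric Topology
open scoped ENNReal NNReal

set_option linter.unusedSectionVars false

namespace Pool.Agent.Helper5.Steiner

variable {E : Type*} [NormedAddCommGroup E] [InnerProductSpace ℝ E] [MeasurableSpace E]
  [BorelSpace E]

/-- Inside a clean ball there is positive length. -/
theorem Clean.ball_pos {X : Set E} {c u : E} {s : ℝ} (h : Clean X c u s) :
    0 < μH[1] (X ∩ ball c s) := by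
  have hs := h.pos
  have hsub : segment ℝ (c - (s / 2) • u) (c + (s / 2) • u) ⊆ X ∩ ball c s := by
    apply subset_inter
    · refine subset_trans ?_ h.seg
      apply (convex_segment _ _).segment_subset
      · refine ⟨3 / 4, 1 / 4, by norm_num, by norm_num, by norm_num, ?_⟩
        simp only [smul_sub, smul_add, smul_smul]
        module
      · refine ⟨1 / 4, 3 / 4, by norm_num, by norm_num, by norm_num, ?_⟩
        simp only [smul_sub, smul_add, smul_smul]
        module
    · apply (convex_ball c s).segment_subset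
      · rw [mem_ball, dist_eq_norm]
        simp [norm_smul, h.unit, abs_of_pos hs]
        linarith
      · rw [mem_ball, dist_eq_norm]
        simp [norm_smul, h.unit, abs_of_pos hs]
        linarith
  refine lt_of_lt_of_le ?_ (measure_mono hsub)
  rw [hausdorffMeasure_segment, edist_pos]
  intro he
  have h2 : s • u = 0 := by
    have h3 : c + (s / 2) • u - (c - (s / 2) • u) = 0 := by rw [he]; simp
    have h4 : c + (s / 2) • u - (c - (s / 2) • u) = s • u := by module
    rw [← h4]; exact h3
  rcases smul_eq_zero.1 h2 with h3 | h3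
  · linarith
  · have := h.unit; rw [h3] at this; simp at this

theorem meas_split (X : Set E) (c : E) (s : ℝ) :
    μH[1] (X ∩ ball c s) + μH[1] (X \ ball c s) = μH[1] X :=
  measure_inter_add_sdiff X measurableSet_ball

theorem Clean.closedBall_le {X : Set E} {c u : E} {s : ℝ} (h : Clean X c u s) :
    μH[1] (X ∩ closedBall c s) ≤ μH[1] (X ∩ ball c s) := by
  have hsub : X ∩ closedBall c s ⊆ (X ∩ ball c s) ∪ {c - s • u, c + s • u} := by
    rintro x ⟨hx, hxc⟩
    by_cases hxb : x ∈ ball c s
    · exact Or.inl ⟨hx, hxb⟩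
    · right
      rw [← h.sphere]
      refine ⟨hx, ?_⟩
      rw [mem_closedBall] at hxc
      rw [mem_ball, not_lt] at hxb
      rw [mem_sphere]; exact le_antisymm hxc hxb
  have : NullSingletonClass (μH[1] : Measure E) := nullSingletonClass_hausdorff E one_pos
  calc μH[1] (X ∩ closedBall c s) ≤ μH[1] ((X ∩ ball c s) ∪ {c - s • u, c + s • u}) :=
        measure_mono hsub
    _ ≤ μH[1] (X ∩ ball c s) + μH[1] ({c - s • u, c + s • u} : Set E) := measure_union_le _ _
    _ = μH[1] (X ∩ ball c s) := by
        have h0 : μH[1] ({c - s • u, c + s • u} : Set E) = 0 :=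
          (Set.toFinite ({c - s • u, c + s • u} : Set E)).measure_zero _
        rw [h0, add_zero]

/-- Minimality forces a clean ball to disconnect. -/
theorem IsSteiner.exists_split {T X : Set E} (hX : IsSteiner T X) (hfin : μH[1] X ≠ ∞)
    {c u : E} {s : ℝ} (h : Clean X c u s) (hT : Disjoint T (closedBall c s)) :
    ∃ P Q : Set E, Split X c u s P Q := by
  apply h.split hX.compact hX.conn.isPreconnected
  intro hcon
  have hK : IsConnected (X \ ball c s) :=
    ⟨⟨c - s • u, h.mem_left, by
      have := h.left_sphere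
      rw [mem_sphere] at this
      rw [mem_ball, this]; exact lt_irrefl _⟩, hcon⟩
  have h1 := hX.min (X \ ball c s) (hX.compact.diff isOpen_ball) hK (by
    intro t ht
    exact ⟨hX.sub ht, fun hb => hT.le_bot ⟨ht, ball_subset_closedBall hb⟩⟩)
  have h2 := meas_split X c s
  have h3 := h.ball_pos
  have h4 : μH[1] (X \ ball c s) ≠ ∞ := ne_top_of_le_ne_top hfin (measure_mono sdiff_subset)
  rw [← h2] at h1
  have h5 : μH[1] (X \ ball c s) < μH[1] (X ∩ ball c s) + μH[1] (X \ ball c s) := by
    rw [add_comm]
    exact ENNReal.lt_add_right h4 h3.ne'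
  exact absurd h1 (not_le.2 h5)

theorem Split.swap {X : Set E} {c u : E} {s : ℝ} {P Q : Set E} (h : Split X c u s P Q) :
    Split X c (-u) s Q P := by
  refine ⟨h.closedQ, h.closedP, h.connQ, h.connP, h.disj.symm, ?_, ?_, ?_⟩
  · rw [h.union, union_comm]
  · rw [smul_neg, sub_neg_eq_add]; exact h.right
  · rw [smul_neg, ← sub_eq_add_neg]; exact h.left

theorem Clean.swap {X : Set E} {c u : E} {s : ℝ} (h : Clean X c u s) : Clean X c (-u) s := by
  refine ⟨h.pos, by rw [norm_neg]; exact h.unit, ?_, ?_⟩
  · rw [smul_neg, sub_neg_eq_add, ← sub_eq_add_neg, segment_symm]; exact h.seg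
  · rw [smul_neg, sub_neg_eq_add, ← sub_eq_add_neg, h.sphere, pair_comm]

/-- The left side is minimal for its terminals together with the new end point. -/
theorem IsSteiner.left {T X : Set E} (hX : IsSteiner T X) (hfin : μH[1] X ≠ ∞)
    {c u : E} {s : ℝ} (h : Clean X c u s) (hT : Disjoint T (closedBall c s))
    {P Q : Set E} (hs : Split X c u s P Q) :
    IsSteiner (insert (c - s • u) (T ∩ P)) P := by
  have hPX := hs.subP
  refine ⟨hX.compact.of_isClosed_subset hs.closedP hPX, hs.connP, ?_, ?_⟩
  · rintro x (rfl | hx)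
    · exact hs.left
    · exact hx.2
  intro K hK hKc hKs
  -- the competitor
  set C : Set E := X ∩ closedBall c s with hC
  have hCc : IsConnected C :=
    ⟨⟨c - s • u, h.mem_left, sphere_subset_closedBall h.left_sphere⟩,
      h.inner_conn hX.compact hX.conn.isPreconnected⟩
  have h1 : IsConnected (K ∪ C) := hKc.union
    ⟨c - s • u, hKs (Or.inl rfl), h.mem_left, sphere_subset_closedBall h.left_sphere⟩ hCc
  have h2 : IsConnected ((K ∪ C) ∪ Q) := h1.union
    ⟨c + s • u, Or.inr ⟨h.mem_right, sphere_subset_closedBall h.right_sphere⟩, hs.right⟩ hs.connQ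
  have hQk : IsCompact Q := hX.compact.of_isClosed_subset hs.closedQ hs.subQ
  have hCk : IsCompact C := hX.compact.inter_right isClosed_closedBall
  have h3 := hX.min _ ((hK.union hCk).union hQk) h2 (by
    intro t ht
    have htX : t ∈ X \ ball c s :=
      ⟨hX.sub ht, fun hb => hT.le_bot ⟨ht, ball_subset_closedBall hb⟩⟩
    rw [hs.union] at htX
    rcases htX with h4 | h4
    · exact Or.inl (Or.inl (hKs (Or.inr ⟨ht, h4⟩)))
    · exact Or.inr h4)
  have h4 : μH[1] X = μH[1] (X ∩ ball c s) + (μH[1] P + μH[1] Q) := by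
    rw [← meas_split X c s, hs.union,
      measure_union hs.disj hs.closedQ.measurableSet]
  have h5 : μH[1] ((K ∪ C) ∪ Q) ≤ μH[1] (X ∩ ball c s) + (μH[1] K + μH[1] Q) := by
    calc μH[1] ((K ∪ C) ∪ Q) ≤ μH[1] (K ∪ C) + μH[1] Q := measure_union_le _ _
      _ ≤ μH[1] K + μH[1] C + μH[1] Q := by gcongr; exact measure_union_le _ _
      _ ≤ μH[1] K + μH[1] (X ∩ ball c s) + μH[1] Q :=
          add_le_add (add_le_add le_rfl h.closedBall_le) le_rfl
      _ = μH[1] (X ∩ ball c s) + (μH[1] K + μH[1] Q) := by ring
  have h6 := h3.trans h5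
  rw [h4] at h6
  have hb : μH[1] (X ∩ ball c s) ≠ ∞ := ne_top_of_le_ne_top hfin (measure_mono inter_subset_left)
  have hq : μH[1] Q ≠ ∞ := ne_top_of_le_ne_top hfin (measure_mono hs.subQ)
  exact (ENNReal.add_le_add_iff_right hq).1 ((ENNReal.add_le_add_iff_left hb).1 h6)

/-- The right side is minimal for its terminals together with the new end point. -/
theorem IsSteiner.right {T X : Set E} (hX : IsSteiner T X) (hfin : μH[1] X ≠ ∞)
    {c u : E} {s : ℝ} (h : Clean X c u s) (hT : Disjoint T (closedBall c s))
    {P Q : Set E} (hs : Split X c u s P Q) :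
    IsSteiner (insert (c + s • u) (T ∩ Q)) Q := by
  have := hX.left hfin h.swap hT hs.swap
  rwa [smul_neg, sub_neg_eq_add] at this

/-- The right side contains a terminal. -/
theorem IsSteiner.terminal_right {T X : Set E} (hX : IsSteiner T X) (hfin : μH[1] X ≠ ∞)
    {c u : E} {s : ℝ} (h : Clean X c u s) (hT : Disjoint T (closedBall c s))
    {P Q : Set E} (hs : Split X c u s P Q) : (T ∩ Q).Nonempty := by
  by_contra hn
  have hTP : T ⊆ P := by
    intro t ht
    have htX : t ∈ X \ ball c s :=
      ⟨hX.sub ht, fun hb => hT.le_bot ⟨ht, ball_subset_closedBall hb⟩⟩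
    rw [hs.union] at htX
    rcases htX with h4 | h4
    · exact h4
    · exact (hn ⟨t, ht, h4⟩).elim
  have h1 := hX.min P (hX.compact.of_isClosed_subset hs.closedP hs.subP) hs.connP hTP
  have h2 : μH[1] P ≤ μH[1] (X \ ball c s) := by rw [hs.union]; exact measure_mono subset_union_left
  have h3 := h.ball_pos
  have h4 : μH[1] (X \ ball c s) ≠ ∞ := ne_top_of_le_ne_top hfin (measure_mono sdiff_subset)
  have h5 : μH[1] (X \ ball c s) < μH[1] X := by
    rw [← meas_split X c s, add_comm]
    exact ENNReal.lt_add_right h4 h3.ne'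
  exact absurd (h1.trans h2) (not_le.2 h5)

end Pool.Agent.Helper5.Steiner
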